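import Pool.Agent.P.MP_1a637f_co.Final

/-! Twisted periodic sequences over `ZMod a` (words under the incrementing rotation). -/

namespace Pool.Agent.P.MP_1a637f_co.G

open Classical

/-- Words of length `L` over `ZMod a`, extended by `x (i + L) = x i + 1`. -/
structure W (a L : ℕ) : Type where
  val : ℤ → ZMod a
  tw : ∀ i, val (i + L) = val i + 1

namespace W

variable {a L : ℕ}

theorem ext' {x y : W a L} (h : ∀ i, x.1 i = y.1 i) : x = y := by
  cases x; cases y; congr; exact funext h

theorem val_add_mul (x : W a L) (i k : ℤ) : x.1 (i + k * L) = x.1 i + k := by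
  induction k using Int.induction_on with
  | zero => simp
  | succ k ih =>
    rw [show i + ((k : ℤ) + 1) * L = (i + k * L) + L by ring, x.2, ih]
    push_cast; ring
  | pred k ih =>
    have := x.2 (i + (-(k : ℤ) - 1) * L)
    rw [show i + (-(k : ℤ) - 1) * L + L = i + (-(k : ℤ)) * L by ring, ih] at this
    rw [eq_sub_of_add_eq this.symm]
    push_cast; ring

theorem mod_iff {x y : W a L} (i : ℤ) : x.1 (i % L) = y.1 (i % L) ↔ x.1 i = y.1 i := by
  have hx := x.val_add_mul (i % L) (i / L)
  have hy := y.val_add_mul (i % L) (i / L)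
  rw [mul_comm, Int.emod_add_mul_ediv] at hx hy
  rw [hx, hy, add_left_inj]

theorem ext_window (hL : 0 < L) {x y : W a L} (h : ∀ i : ℕ, i < L → x.1 i = y.1 i) : x = y := by
  apply ext'
  intro i
  rw [← mod_iff]
  have h0 : 0 ≤ i % L := Int.emod_nonneg _ (by omega)
  have h1 : i % L < L := Int.emod_lt_of_pos _ (by omega)
  have := h (i % L).toNat (by omega)
  rwa [Int.toNat_of_nonneg h0] at this

/-- The twisted extension of the window `f 0, …, f (L-1)`. -/
def win (L : ℕ) (hL : 0 < L) (f : ℕ → ZMod a) : W a L :=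
  ⟨fun i => f (i % L).toNat + ((i / L : ℤ) : ZMod a), by
    intro i
    have h : (L : ℤ) ≠ 0 := by omega
    rw [Int.add_emod_right, Int.add_ediv_of_dvd_right (dvd_refl _), Int.ediv_self h]
    push_cast; ring⟩

theorem win_apply (hL : 0 < L) (f : ℕ → ZMod a) {i : ℕ} (hi : i < L) :
    (win L hL f).1 i = f i := by
  have h1 : (i : ℤ) % L = i := Int.emod_eq_of_lt (by omega) (by omega)
  have h2 : (i : ℤ) / L = 0 := Int.ediv_eq_zero_of_lt (by omega) (by omega)
  simp [win, h1, h2]

/-- Words of length `L`. -/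
noncomputable def equivFin (hL : 0 < L) : W a L ≃ (Fin L → ZMod a) where
  toFun x := fun i => x.1 (i : ℕ)
  invFun f := win L hL (fun i => if h : i < L then f ⟨i, h⟩ else 0)
  left_inv x := ext_window hL (fun i hi => by rw [win_apply hL _ hi]; simp [hi])
  right_inv f := by
    funext i
    beta_reduce
    rw [win_apply hL _ i.2]; simp

theorem finite [NeZero a] (hL : 0 < L) : Finite (W a L) := Finite.of_equiv _ (equivFin hL).symm

theorem card (hL : 0 < L) : Nat.card (W a L) = a ^ L := by
  rw [Nat.card_congr (equivFin hL)]; simp [Nat.card_fun]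

/-- Shift by `k`. -/
def sh (k : ℤ) (x : W a L) : W a L :=
  ⟨fun i => x.1 (i + k), fun i => by rw [← x.2]; exact congrArg x.1 (by ring)⟩

@[simp] theorem sh_apply (k : ℤ) (x : W a L) (i : ℤ) : (sh k x).1 i = x.1 (i + k) := rfl

theorem sh_sh (k l : ℤ) (x : W a L) : sh k (sh l x) = sh (k + l) x :=
  ext' (fun i => by simp [add_assoc])

@[simp] theorem sh_zero (x : W a L) : sh 0 x = x := ext' (fun i => by simp)

theorem sh_inj (k : ℤ) {x y : W a L} (h : sh k x = sh k y) : x = y := by
  have := congrArg (sh (-k)) h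
  simpa [sh_sh] using this

theorem sh_full (x : W a L) (m : ℤ) : sh (m * ((L * a : ℕ) : ℤ)) x = x :=
  ext' (fun i => by
    rw [sh_apply, show i + m * ((L * a : ℕ) : ℤ) = i + (m * a) * L by push_cast; ring, val_add_mul]
    simp)

/-- Add `t` to the coordinate `j` (mod `L`). -/
def bump (j : ℤ) (t : ZMod a) (x : W a L) : W a L :=
  ⟨fun i => x.1 i + if (L : ℤ) ∣ i - j then t else 0, fun i => by
    have : ((L : ℤ) ∣ i + L - j) ↔ (L : ℤ) ∣ i - j := by
      rw [show i + L - j = (i - j) + L by ring]
      exact dvd_add_left (dvd_refl _)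
    simp only [this, x.2]
    ring⟩

theorem bump_apply (j : ℤ) (t : ZMod a) (x : W a L) (i : ℤ) :
    (bump j t x).1 i = x.1 i + if (L : ℤ) ∣ i - j then t else 0 := rfl

theorem bump_apply_of_not {j i : ℤ} (h : ¬ (L : ℤ) ∣ i - j) (t : ZMod a) (x : W a L) :
    (bump j t x).1 i = x.1 i := by rw [bump_apply, if_neg h, add_zero]

theorem bump_apply_self (j : ℤ) (t : ZMod a) (x : W a L) : (bump j t x).1 j = x.1 j + t := by
  simp [bump_apply]

theorem bump_bump (j : ℤ) (s t : ZMod a) (x : W a L) :
    bump j t (bump j s x) = bump j (s + t) x :=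
  ext' (fun i => by simp only [bump_apply]; split_ifs <;> ring)

@[simp] theorem bump_zero (j : ℤ) (x : W a L) : bump j 0 x = x :=
  ext' (fun i => by simp [bump_apply])

theorem bump_neg (j : ℤ) (t : ZMod a) (x : W a L) : bump j (-t) (bump j t x) = x := by
  rw [bump_bump]; simp

theorem bump_comm (i j : ℤ) (s t : ZMod a) (x : W a L) :
    bump i s (bump j t x) = bump j t (bump i s x) :=
  ext' (fun k => by simp only [bump_apply]; ring)

theorem sh_bump (k j : ℤ) (t : ZMod a) (x : W a L) :
    sh k (bump j t x) = bump (j - k) t (sh k x) :=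
  ext' (fun i => by
    simp only [bump_apply, sh_apply]
    rw [show i + k - j = i - (j - k) by ring])

theorem bump_congr {i j : ℤ} (h : (L : ℤ) ∣ i - j) (t : ZMod a) (x : W a L) :
    bump i t x = bump j t x :=
  ext' (fun k => by
    simp only [bump_apply]
    have : ((L : ℤ) ∣ k - i) ↔ (L : ℤ) ∣ k - j := by
      rw [show k - j = (k - i) + (i - j) by ring]
      exact (dvd_add_left h).symm
    simp only [this])

theorem bump_inj (j : ℤ) {s t : ZMod a} {x : W a L} (h : bump j s x = bump j t x) : s = t := by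
  have := congrFun (congrArg W.val h) j
  simpa [bump_apply] using this

theorem not_dvd_of_lt {i j : ℕ} (hi : i < L) (hj : j < L) (h : i ≠ j) :
    ¬ (L : ℤ) ∣ (i : ℤ) - j := by
  intro hd
  have := Int.eq_zero_of_abs_lt_dvd hd (by rw [abs_lt]; constructor <;> omega)
  omega

theorem eq_bump {x y : W a L} (j : ℤ) (h : ∀ i, ¬ (L : ℤ) ∣ i - j → y.1 i = x.1 i) :
    y = bump j (y.1 j - x.1 j) x :=
  ext' (fun i => by
    rw [bump_apply]
    split_ifs with hi
    · obtain ⟨m, hm⟩ := hi
      rw [show i = j + m * L by linarith, val_add_mul, val_add_mul]; ring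
    · rw [h i hi, add_zero])

theorem win_succ (hL : 0 < L) {f f' : ℕ → ZMod a} (h : ∀ i, i + 1 < L → f' i = f (i + 1))
    (h' : f' (L - 1) = f 0 + 1) : win L hL f' = sh 1 (win L hL f) := by
  apply ext_window hL
  intro i hi
  rw [win_apply hL _ hi, sh_apply]
  by_cases hi' : i + 1 < L
  · rw [h i hi', ← win_apply hL f hi']; push_cast; rfl
  · have : i = L - 1 := by omega
    subst this
    rw [h', show ((L - 1 : ℕ) : ℤ) + 1 = ((0 : ℕ) : ℤ) + L by omega, (win L hL f).2,
      win_apply hL _ hL]

theorem win_bump (hL : 0 < L) {f f' : ℕ → ZMod a} {j : ℕ} (hj : j < L) {t : ZMod a}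
    (h : ∀ i, i < L → i ≠ j → f' i = f i) (h' : f' j = f j + t) :
    win L hL f' = bump j t (win L hL f) := by
  apply ext_window hL
  intro i hi
  rw [win_apply hL _ hi, bump_apply, win_apply hL _ hi]
  by_cases hij : i = j
  · subst hij; simp [h']
  · rw [if_neg (not_dvd_of_lt hi hj hij), h i hi hij, add_zero]

theorem win_congr (hL : 0 < L) {f f' : ℕ → ZMod a} (h : ∀ i, i < L → f' i = f i) :
    win L hL f' = win L hL f :=
  ext_window hL (fun i hi => by rw [win_apply hL _ hi, win_apply hL _ hi, h i hi])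

theorem win_succ' (hL : 0 < L) {f f' : ℕ → ZMod a} {t : ZMod a}
    (h : ∀ i, i + 1 < L → f' i = f (i + 1))
    (h' : f' (L - 1) = f 0 + t + 1) : win L hL f' = sh 1 (bump 0 t (win L hL f)) := by
  have := win_bump hL (f := f) (f' := fun i => if i = 0 then f 0 + t else f i) hL (t := t)
    (fun i _ hi => by simp [hi]) (by simp)
  rw [Nat.cast_zero] at this
  rw [← this]
  apply win_succ hL
  · intro i hi; simp [h i hi]
  · simp [h']

variable {N : ℕ}

/-- The subsequence of positions `≡ c (mod N)`. -/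
def blk (c : ℤ) (x : W a (N * L)) : W a L :=
  ⟨fun i => x.1 (N * i + c), fun i => by
    rw [← x.2]; exact congrArg x.1 (by push_cast; ring)⟩

@[simp] theorem blk_apply (c : ℤ) (x : W a (N * L)) (i : ℤ) :
    (blk c x).1 i = x.1 (N * i + c) := rfl

theorem blk_sh (c k : ℤ) (x : W a (N * L)) : blk c (sh k x) = blk (c + k) x :=
  ext' (fun i => by simp [add_assoc])

theorem blk_add (c k : ℤ) (x : W a (N * L)) : blk (c + N * k) x = sh k (blk c x) :=
  ext' (fun i => by simp only [blk_apply, sh_apply]; exact congrArg x.1 (by ring))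

theorem blk_mod (c : ℤ) (x : W a (N * L)) : blk c x = sh (c / N) (blk (c % N) x) := by
  rw [← blk_add, Int.emod_add_mul_ediv]

/-- Replace the block `c` by `z`. -/
def setBlk (hN : 0 < N) (c : ℤ) (x : W a (N * L)) (z : W a L) : W a (N * L) :=
  ⟨fun i => if (N : ℤ) ∣ i - c then z.1 ((i - c) / N) else x.1 i, fun i => by
    have : ((N : ℤ) ∣ i + (N * L : ℕ) - c) ↔ (N : ℤ) ∣ i - c := by
      rw [show i + (N * L : ℕ) - c = (i - c) + N * L by push_cast; ring]
      exact dvd_add_left (dvd_mul_right _ _)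
    simp only [this]
    split_ifs with h
    · rw [← z.2]
      refine congrArg z.1 ?_
      rw [show i + (N * L : ℕ) - c = (i - c) + N * L by push_cast; ring,
        Int.add_mul_ediv_left _ _ (by omega)]
    · exact x.2 i⟩

theorem setBlk_apply (hN : 0 < N) (c : ℤ) (x : W a (N * L)) (z : W a L) (i : ℤ) :
    (setBlk hN c x z).1 i = if (N : ℤ) ∣ i - c then z.1 ((i - c) / N) else x.1 i := rfl

theorem blk_setBlk (hN : 0 < N) (c : ℤ) (x : W a (N * L)) (z : W a L) :
    blk c (setBlk hN c x z) = z :=
  ext' (fun i => by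
    rw [blk_apply, setBlk_apply, add_sub_cancel_right, if_pos (dvd_mul_right _ _),
      Int.mul_ediv_cancel_left _ (by omega)])

theorem blk_setBlk_ne (hN : 0 < N) {c c' : ℤ} (h : ¬ (N : ℤ) ∣ c' - c) (x : W a (N * L))
    (z : W a L) : blk c' (setBlk hN c x z) = blk c' x :=
  ext' (fun i => by
    rw [blk_apply, setBlk_apply, if_neg]
    · rfl
    · rw [add_sub_assoc]
      exact fun hd => h ((dvd_add_right (dvd_mul_right _ _)).1 hd))

theorem setBlk_blk (hN : 0 < N) (c : ℤ) (x : W a (N * L)) : setBlk hN c x (blk c x) = x :=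
  ext' (fun i => by
    rw [setBlk_apply]
    split_ifs with h
    · rw [blk_apply, Int.mul_ediv_cancel' h, sub_add_cancel]
    · rfl)

theorem setBlk_bump (hN : 0 < N) (c j : ℤ) (t : ZMod a) (x : W a (N * L)) (z : W a L) :
    setBlk hN c x (bump j t z) = bump (N * j + c) t (setBlk hN c x z) :=
  ext' (fun i => by
    simp only [setBlk_apply, bump_apply]
    by_cases h : (N : ℤ) ∣ i - c
    · obtain ⟨m, hm⟩ := h
      have e1 : (i - c) / N = m := by rw [hm, Int.mul_ediv_cancel_left _ (by omega)]
      have e2 : (((N * L : ℕ) : ℤ) ∣ i - (N * j + c)) ↔ (L : ℤ) ∣ m - j := by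
        rw [show i - (N * j + c) = N * (m - j) by linarith]
        push_cast
        exact Int.mul_dvd_mul_iff_left (by omega)
      simp only [e1, e2, show (N : ℤ) ∣ i - c from ⟨m, hm⟩, if_true]
    · have : ¬ (((N * L : ℕ) : ℤ) ∣ i - (N * j + c)) := by
        intro hd
        have h1 : (N : ℤ) ∣ i - (N * j + c) := Dvd.dvd.trans ⟨L, by push_cast; rfl⟩ hd
        apply h
        rw [show i - c = i - (N * j + c) + N * j by ring]
        exact dvd_add h1 (dvd_mul_right _ _)
      simp only [h, this, if_false, add_zero])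

theorem bump_eq_setBlk (hN : 0 < N) (c j : ℤ) (t : ZMod a) (x : W a (N * L)) :
    bump (N * j + c) t x = setBlk hN c x (bump j t (blk c x)) := by
  rw [setBlk_bump, setBlk_blk]

theorem exists_nat (hN : 0 < N) (c : ℤ) : ∃ i : ℕ, i < N ∧ (i : ℤ) = c % N := by
  have h0 : 0 ≤ c % N := Int.emod_nonneg _ (by omega)
  have h1 : c % N < N := Int.emod_lt_of_pos _ (by omega)
  exact ⟨(c % N).toNat, by omega, Int.toNat_of_nonneg h0⟩

theorem blk_ext (hN : 0 < N) {x y : W a (N * L)} (h : ∀ i : ℕ, i < N → blk i x = blk i y) :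
    x = y := by
  apply ext'
  intro i
  obtain ⟨j, hj, e⟩ := exists_nat hN i
  have := congrFun (congrArg W.val (h j hj)) (i / N)
  simp only [blk_apply] at this
  rwa [e, Int.mul_ediv_add_emod] at this

/-- Glue `N` blocks. -/
def glue (hN : 0 < N) (f : ℕ → W a L) : W a (N * L) :=
  ⟨fun i => (f (i % N).toNat).1 (i / N), fun i => by
    rw [show i + (N * L : ℕ) = i + N * L by push_cast; ring, Int.add_mul_emod_self_left,
      Int.add_mul_ediv_left _ _ (by omega), (f _).2]⟩

theorem blk_glue (hN : 0 < N) (f : ℕ → W a L) {i : ℕ} (hi : i < N) : blk i (glue hN f) = f i :=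
  ext' (fun k => by
    have h1 : ((N : ℤ) * k + i) % N = i := by
      rw [add_comm, Int.add_mul_emod_self_left]; exact Int.emod_eq_of_lt (by omega) (by omega)
    have h2 : ((N : ℤ) * k + i) / N = k := by
      rw [add_comm, Int.add_mul_ediv_left _ _ (by omega),
        Int.ediv_eq_zero_of_lt (by omega) (by omega), zero_add]
    simp only [blk_apply, glue, h1, h2, Int.toNat_natCast])

/-- Paths of single-letter changes inside the set `P`. -/
def Path (P : W a L → Prop) : W a L → W a L → Prop :=
  Relation.ReflTransGen (fun x y => P x ∧ P y ∧ ∃ j t, y = bump j t x)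

/-- `P` induces a connected subgraph of the Hamming graph. -/
def Conn (P : W a L → Prop) : Prop := ∀ x y, P x → P y → Path P x y

theorem Path.mono {P Q : W a L → Prop} (h : ∀ z, P z → Q z) {x y : W a L} (hp : Path P x y) :
    Path Q x y := by
  induction hp with
  | refl => exact .refl
  | tail _ h' ih => exact ih.tail ⟨h _ h'.1, h _ h'.2.1, h'.2.2⟩

theorem Path.symm {P : W a L → Prop} {x y : W a L} (hp : Path P x y) : Path P y x := by
  induction hp with
  | refl => exact .refl
  | tail _ h ih =>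
    obtain ⟨h1, h2, j, t, rfl⟩ := h
    exact Relation.ReflTransGen.head ⟨h2, h1, j, -t, (bump_neg _ _ _).symm⟩ ih

theorem Path.one {P : W a L → Prop} {x : W a L} {j : ℤ} {t : ZMod a} (h1 : P x)
    (h2 : P (bump j t x)) : Path P x (bump j t x) :=
  Relation.ReflTransGen.single ⟨h1, h2, j, t, rfl⟩

theorem Path.last {P : W a L → Prop} {x y : W a L} (hp : Path P x y) (hx : P x) : P y := by
  induction hp with
  | refl => exact hx
  | tail _ h _ => exact h.2.1

theorem Path.setBlk (hN : 0 < N) {P : W a L → Prop} {Q : W a (N * L) → Prop} (c : ℤ)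
    (x : W a (N * L)) (h : ∀ z, P z → Q (setBlk hN c x z)) {y z : W a L} (hp : Path P y z) :
    Path Q (setBlk hN c x y) (setBlk hN c x z) := by
  induction hp with
  | refl => exact .refl
  | tail _ h' ih =>
    obtain ⟨h1, h2, j, t, rfl⟩ := h'
    exact ih.tail ⟨h _ h1, h _ h2, _, t, setBlk_bump _ _ _ _ _ _⟩

theorem Path.sh {P Q : W a L → Prop} (k : ℤ) (h : ∀ z, P z → Q (sh k z)) {x y : W a L}
    (hp : Path P x y) : Path Q (sh k x) (sh k y) := by
  induction hp with
  | refl => exact .refl
  | tail _ h' ih =>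
    obtain ⟨h1, h2, j, t, rfl⟩ := h'
    exact ih.tail ⟨h _ h1, h _ h2, _, t, sh_bump _ _ _ _⟩

theorem Conn.sh {P Q : W a L → Prop} (hP : Conn P) (k : ℤ) (h : ∀ z, P z ↔ Q (sh k z)) :
    Conn Q := by
  intro x y hx hy
  have := Path.sh (Q := Q) k (fun z => (h z).1)
    (hP (W.sh (-k) x) (W.sh (-k) y) ((h _).2 (by simpa [sh_sh] using hx))
      ((h _).2 (by simpa [sh_sh] using hy)))
  simpa [sh_sh] using this

theorem conn_eq (z : W a L) : Conn (fun x => x = z) := by
  rintro x y rfl rfl
  exact .refl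

theorem conn_univ (hL : 0 < L) : Conn (fun _ : W a L => True) := by
  intro x y _ _
  have : ∀ k : ℕ, k ≤ L → ∀ x : W a L, (∀ i : ℕ, k ≤ i → i < L → x.1 i = y.1 i) →
      Path (fun _ => True) x y := by
    intro k
    induction k with
    | zero =>
      intro _ x h
      rw [ext_window hL (fun i hi => h i (by omega) hi)]
      exact .refl
    | succ k ih =>
      intro hk x h
      refine (Path.one (j := k) (t := y.1 k - x.1 k) trivial trivial).trans (ih (by omega) _ ?_)
      intro i h1 h2
      rcases Nat.eq_or_lt_of_le h1 with rfl | h1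
      · rw [bump_apply_self]; ring
      · rw [bump_apply_of_not (not_dvd_of_lt h2 (by omega) (by omega)), h i h1 h2]
  exact this L le_rfl x (fun i h1 h2 => by omega)

/-- A product of connected sets is connected. -/
theorem conn_prod (hN : 0 < N) {P : ℕ → W a L → Prop} (hP : ∀ i, i < N → Conn (P i)) :
    Conn (fun x : W a (N * L) => ∀ i : ℕ, i < N → P i (blk i x)) := by
  intro x y hx hy
  set Q : W a (N * L) → Prop := fun x => ∀ i : ℕ, i < N → P i (blk i x) with hQ
  have : ∀ k : ℕ, k ≤ N → ∀ x : W a (N * L), Q x →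
      (∀ i : ℕ, k ≤ i → i < N → blk i x = blk i y) → Path Q x y := by
    intro k
    induction k with
    | zero =>
      intro _ x _ h
      rw [blk_ext hN (fun i hi => h i (by omega) hi)]
      exact .refl
    | succ k ih =>
      intro hk x hx h
      have hz : ∀ z, P k z → Q (setBlk hN k x z) := by
        intro z hz i hi
        by_cases e : i = k
        · subst e; rwa [blk_setBlk]
        · rw [blk_setBlk_ne hN (not_dvd_of_lt hi (by omega) e)]; exact hx i hi
      have p1 := Path.setBlk hN (Q := Q) k x hz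
        (hP k (by omega) _ _ (hx k (by omega)) (hy k (by omega)))
      rw [setBlk_blk] at p1
      refine p1.trans (ih (by omega) _ (hz _ (hy k (by omega))) ?_)
      intro i h1 h2
      rcases Nat.eq_or_lt_of_le h1 with rfl | h1
      · rw [blk_setBlk]
      · rw [blk_setBlk_ne hN (not_dvd_of_lt h2 (by omega) (by omega)), h i h1 h2]
  exact this N le_rfl x hx (fun i h1 h2 => by omega)

theorem clk_sh {q : ℕ} {Φ : W a L → ZMod q} (h : ∀ x, Φ (sh 1 x) = Φ x + 1) (k : ℤ)
    (x : W a L) : Φ (sh k x) = Φ x + k := by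
  induction k using Int.induction_on with
  | zero => simp
  | succ k ih => rw [add_comm (k : ℤ) 1, ← sh_sh, h, ih]; push_cast; ring
  | pred k ih =>
    have := h (sh (-(k : ℤ) - 1) x)
    rw [sh_sh, show (1 : ℤ) + (-(k : ℤ) - 1) = -k by ring, ih] at this
    rw [eq_sub_of_add_eq this.symm]; push_cast; ring

theorem conn_clock {q : ℕ} [NeZero q] {Φ : W a L → ZMod q} (h : ∀ x, Φ (sh 1 x) = Φ x + 1)
    (h0 : Conn (fun x => Φ x = 0)) (r : ZMod q) : Conn (fun x => Φ x = r) :=
  h0.sh r.val (fun z => by rw [clk_sh h]; simp)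

/-- The word of digits of the blocks. -/
def dig {b : W a L → ZMod a} (hb : ∀ x, b (sh 1 x) = b x + 1) (x : W a (N * L)) : W a N :=
  ⟨fun c => b (blk c x), fun c => by
    rw [show c + (N : ℤ) = c + N * 1 by ring, blk_add, hb]⟩

section
variable {b : W a L → ZMod a} (hb : ∀ x, b (sh 1 x) = b x + 1)

theorem dig_apply (x : W a (N * L)) (c : ℤ) : (dig hb x).1 c = b (blk c x) := rfl

theorem dig_sh (k : ℤ) (x : W a (N * L)) : dig hb (sh k x) = sh k (dig hb x) :=
  ext' (fun c => by simp only [dig_apply, sh_apply, blk_sh])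

theorem dig_setBlk (hN : 0 < N) (c : ℤ) (x : W a (N * L)) (z : W a L) :
    dig hb (setBlk hN c x z) = bump c (b z - b (blk c x)) (dig hb x) := by
  have := eq_bump (x := dig hb x) (y := dig hb (setBlk hN c x z)) c
    (fun i hi => by rw [dig_apply, dig_apply, blk_setBlk_ne hN hi])
  rwa [dig_apply, dig_apply, blk_setBlk] at this

theorem path_dig (hN : 0 < N) (hc : ∀ β, Conn (fun z => b z = β)) {Q : W a (N * L) → Prop}
    {x y : W a (N * L)} (h : dig hb x = dig hb y) (hQ : ∀ z, dig hb z = dig hb x → Q z) :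
    Path Q x y := by
  have := conn_prod hN (P := fun i z => b z = b (blk i x)) (fun i _ => hc _) x y
    (fun _ _ => rfl) (fun i _ => (congrFun (congrArg W.val h) i).symm)
  exact Path.mono (fun z hz => hQ z (ext_window hN hz)) this

/-- Connectivity lifts from digit words to words. -/
theorem conn_dig (hN : 0 < N) (hc : ∀ β, Conn (fun z => b z = β))
    (he : ∀ β δ, ∃ z j t, b z = β ∧ b (bump j t z) = β + δ) {P : W a N → Prop} (hP : Conn P) :
    Conn (fun x : W a (N * L) => P (dig hb x)) := by
  intro x y hx hy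
  have : ∀ u, Path P (dig hb x) u → ∀ y, dig hb y = u →
      Path (fun x : W a (N * L) => P (dig hb x)) x y := by
    intro u hu
    induction hu with
    | refl => exact fun y hy => path_dig hb hN hc hy.symm (fun z hz => by rw [hz]; exact hx)
    | @tail u u' _ h' ih =>
      obtain ⟨h1, h2, j, t, rfl⟩ := h'
      intro y hy
      obtain ⟨z, i, s, e1, e2⟩ := he (u.1 j) t
      have hyj : b (blk j y) = u.1 j + t := by
        rw [← dig_apply hb, hy, bump_apply_self]
      have d1 : dig hb (setBlk hN j y z) = u := by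
        rw [dig_setBlk, hy, e1, hyj, bump_bump]; simp
      have d2 : dig hb (setBlk hN j y (bump i s z)) = bump j t u := by
        rw [dig_setBlk, hy, e2, hyj]; simp
      refine ((ih _ d1).tail ⟨by beta_reduce; rw [d1]; exact h1,
        by beta_reduce; rw [d2]; exact h2, _, s, setBlk_bump _ _ _ _ _ _⟩).trans
        (path_dig hb hN hc (d2.trans hy.symm) (fun z hz => by rw [hz, d2]; exact h2))
  exact this _ (hP _ _ hx hy) y rfl

end

end W

end Pool.Agent.P.MP_1a637f_co.G
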