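import Pool.Agent.P.MP_1a637f_co.G.Conn

/-! Counting letters, arbitrary alphabets and the choice of parameters. -/

set_option linter.unusedSectionVars false

namespace Pool.Agent.P.MP_1a637f_co.G

open Classical W

namespace GPar

variable {ℓ : ℕ}

theorem count_S (c : GPar ℓ) (m : ℕ) :
    Nat.count (fun i : ℕ => c.S (i : ZMod (c.q * c.Q * c.K))) (c.q * c.Q * m) ≤
      (c.Q + (c.B + c.L) + c.L + c.ρ * (c.q * c.Q / c.L + 1)) * m := by
  apply count_blocks
  intro t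
  have hL := c.h.Lpos
  have hB := c.hB
  let k : ZMod c.K := t
  have key : ∀ i, i < c.q * c.Q → c.S ((c.q * c.Q * t + i : ℕ) : ZMod (c.q * c.Q * c.K)) →
      (((i : ZMod c.q) = -1 ∨ i < c.B + c.L) ∨ c.q * c.Q ≤ i + c.L) ∨
        c.rd (sh (i : ℤ) (c.rep k)) := by
    intro i hi h
    obtain ⟨X, -, hX⟩ := R_phase (c := c) (fun _ => 0) 0
    have := (S_iff X (c.q * c.Q * t + i) i hi t (by rw [hX, zero_add, add_comm])).1
      (by rw [hX, zero_add]; exact h)
    tauto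
  refine le_trans (Nat.count_mono_left key) ?_
  refine le_trans (@count_or _ _ inferInstance inferInstance _ _) (add_le_add
    (le_trans (@count_or _ _ inferInstance inferInstance _ _) (add_le_add
    (le_trans (@count_or _ _ inferInstance inferInstance _ _) (add_le_add ?_ ?_)) ?_)) ?_)
  · refine le_trans (count_blocks _ c.q 1 (fun t => ?_) c.Q) (by simp)
    refine le_trans (count_le_of_subset _ _ {c.q - 1} ?_) (by simp)
    intro i hi h
    have h' : (i : ZMod c.q) = -1 := by simpa using h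
    rw [eq_neg_one_iff, ZMod.val_natCast_of_lt hi] at h'
    simp; omega
  · refine le_trans (count_le_of_subset _ _ (Finset.range (c.B + c.L)) ?_) (by simp)
    intro i _ h
    simpa using h
  · refine le_trans (count_le_of_subset _ _ (Finset.Ico (c.q * c.Q - c.L) (c.q * c.Q)) ?_)
      (by simp; omega)
    intro i hi h
    simp only [Finset.mem_Ico]; omega
  · refine le_trans (Nat.count_monotone _ (show c.q * c.Q ≤ c.L * (c.q * c.Q / c.L + 1) from
      (Nat.lt_mul_div_succ _ hL).le)) (count_blocks _ _ _ (fun t => ?_) _)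
    refine le_trans (Nat.count_mono_left (fun i _ hi => ?_))
      (c.h.count (sh ((c.L * t : ℕ) : ℤ) (c.rep k)))
    rw [sh_sh, add_comm, ← Nat.cast_add]
    exact hi

theorem S_zero (c : GPar ℓ) : c.S ((0 : ℕ) : ZMod (c.q * c.Q * c.K)) := by
  have := c.h.Lpos
  right; left
  simp; omega

end GPar

theorem good_prod {Z : Type*} {n p : ℕ} {φ : (ℕ → Z) → ZMod p} {S : ZMod p → Prop}
    (hn : 1 < n)
    (h : Good n φ S) {A B : Type*} (e : A ≃ Z × B) :
    Good n (fun X : ℕ → A => φ (fun i => (e (X i)).1)) S := by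
  obtain ⟨nx, h1, h2⟩ := h.succ
  have hsucc : ∀ (X : ℕ → A) (Y : ℕ → Z) (β : B), Step n φ (fun i => (e (X i)).1) Y →
      Step n (fun X : ℕ → A => φ (fun i => (e (X i)).1)) X
        (fun j => e.symm (Y j, if j + 1 < n then (e (X (j + 1))).2 else β)) := by
    rintro X Y β ⟨a1, a2⟩
    refine ⟨fun j hj => ?_, by simpa using a2⟩
    beta_reduce
    rw [if_pos hj, a1 j hj]; simp
  have same : ∀ (k : ℕ) (X X' : ℕ → A), (∀ i, (e (X i)).1 = (e (X' i)).1) →
      (∀ i, k ≤ i → i < n → X i = X' i) →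
      Relation.EqvGen (Step n (fun X : ℕ → A => φ (fun i => (e (X i)).1))) X X' := by
    intro k
    induction k with
    | zero =>
      intro X X' a1 a2
      have b1 := hsucc X _ (e (X 0)).2 (h1 _)
      refine .trans _ _ _ (.rel _ _ b1) (.symm _ _ (.rel _ _ ⟨fun j hj => ?_, ?_⟩))
      · rw [b1.1 j hj, a2 _ (by omega) hj]
      · rw [b1.2]
        beta_reduce
        rw [show (fun i => (e (X' i)).1) = fun i => (e (X i)).1 from funext (fun i => (a1 i).symm)]
    | succ k ih =>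
      intro X X' a1 a2
      have b1 := hsucc X _ (e (X 0)).2 (h1 _)
      have b2 := hsucc X' _ (e (X 0)).2 (h1 _)
      refine .trans _ _ _ (.rel _ _ b1) (.trans _ _ _ (ih _ _ ?_ ?_) (.symm _ _ (.rel _ _ b2)))
      · intro i
        simp [show (fun i => (e (X' i)).1) = fun i => (e (X i)).1 from funext (fun i => (a1 i).symm)]
      · intro i hi _
        rw [show (fun i => (e (X' i)).1) = fun i => (e (X i)).1 from funext (fun i => (a1 i).symm)]
        by_cases hi' : i + 1 < n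
        · rw [a2 (i + 1) (by omega) hi']
        · rw [if_neg hi', if_neg hi']
  refine ⟨fun X X' hX => h.junta _ _ (fun j hj hS => by rw [hX j hj hS]), ?_, ?_⟩
  · refine ⟨fun X j => e.symm (nx (fun i => (e (X i)).1) j,
      if j + 1 < n then (e (X (j + 1))).2 else (e (X 0)).2), fun X => hsucc X _ _ (h1 _), ?_⟩
    intro X X' a1 a2 a3
    simp only [EmbeddingLike.apply_eq_iff_eq, Prod.mk.injEq] at a3
    rw [if_neg (by omega), if_neg (by omega)] at a3
    apply e.injective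
    exact Prod.ext (h2 _ _ (fun j b1 b2 => by rw [a1 j b1 b2]) a2 a3.1) a3.2
  · have lift : ∀ Y Y', Relation.EqvGen (Step n φ) Y Y' → ∀ X X' : ℕ → A,
        (∀ i, (e (X i)).1 = Y i) → (∀ i, (e (X' i)).1 = Y' i) →
        Relation.EqvGen (Step n (fun X : ℕ → A => φ (fun i => (e (X i)).1))) X X' := by
      intro Y Y' hY
      induction hY with
      | rel Y Y' hY =>
        intro X X' a1 a2
        have b1 := hsucc X Y' (e (X 0)).2 (by rwa [show (fun i => (e (X i)).1) = Y from funext a1])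
        exact .trans _ _ _ (.rel _ _ b1)
          (same n _ _ (fun i => by simp [a2]) (fun i b1 b2 => by omega))
      | refl Y =>
        intro X X' a1 a2
        exact same n _ _ (fun i => by rw [a1, a2]) (fun i b1 b2 => by omega)
      | symm _ _ _ ih => exact fun X X' a1 a2 => .symm _ _ (ih X' X a2 a1)
      | trans Y Z Y' _ _ ih1 ih2 =>
        intro X X' a1 a2
        exact .trans _ (fun i => e.symm (Z i, (e (X i)).2)) _ (ih1 _ _ a1 (by simp))
          (ih2 _ _ (by simp) a2)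
    intro X X'
    exact lift _ _ (h.conn _ _) X X' (fun _ => rfl) (fun _ => rfl)

theorem exists_gpar {p : ℕ} (hp : p.Prime) (η : ℝ) (hη : 0 < η) (n0 : ℕ) :
    ∃ c : GPar p, n0 ≤ c.n ∧
    ((c.Q + (c.B + c.L) + c.L + c.ρ * (c.q * c.Q / c.L + 1) : ℕ) : ℝ) < η * (c.q * c.Q : ℕ) := by
  have : Fact p.Prime := ⟨hp⟩
  have hp2 := hp.two_le
  obtain ⟨N, hN⟩ : ∃ N, N = p * p := ⟨_, rfl⟩
  have hN4 : 4 ≤ N := by rw [hN]; nlinarith
  have hNR : (4 : ℝ) ≤ N := by exact_mod_cast hN4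
  obtain ⟨k, hk⟩ := exists_pow_lt_of_lt_one (show 0 < η / 3 by positivity)
    (show ((N : ℝ) - 1) / N < 1 by rw [div_lt_one (by linarith)]; linarith)
  obtain ⟨j, hj⟩ := pow_unbounded_of_one_lt (3 / η) (show (1 : ℝ) < N by linarith)
  have hV := hasTop hp j k
  rw [← hN] at hV
  obtain ⟨q, hq'⟩ : ∃ q, q = N ^ (j + 3) := ⟨_, rfl⟩
  rw [← hq'] at hV
  obtain ⟨L, hL⟩ : ∃ L, L = q * N ^ (k + 1) := ⟨_, rfl⟩
  obtain ⟨ρ, hρ⟩ : ∃ ρ, ρ = (q - 1) * ((N - 1) ^ k * N) := ⟨_, rfl⟩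
  rw [← hL, ← hρ] at hV
  obtain ⟨Φ, C, rd, h, hun⟩ := hV
  have hq : q ∣ L := ⟨_, hL⟩
  obtain ⟨K, B, lab, rep, nx, hs⟩ := exists_gsched h hun hq
  obtain ⟨g, hg⟩ := pow_unbounded_of_one_lt (((B + 3 * L + ρ : ℕ) : ℝ) * (3 / η + 1))
    (show (1 : ℝ) < 2 by norm_num)
  obtain ⟨χ, χ1, χ2⟩ := exists_counter hp (2 * k + g) (L + n0)
  have hq2 : 2 ≤ q := by
    rw [hq']
    calc 2 ≤ N ^ 1 := by rw [pow_one]; omega
      _ ≤ N ^ (j + 3) := Nat.pow_le_pow_right (by omega) (by omega)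
  obtain ⟨Q, hQ⟩ : ∃ Q, Q = p ^ (2 * k + g) * p := ⟨_, rfl⟩
  have hQ2 : 2 ^ g ≤ Q := by
    rw [hQ]
    calc 2 ^ g ≤ p ^ g := by gcongr
      _ ≤ p ^ (2 * k + g + 1) := Nat.pow_le_pow_right (by omega) (by omega)
  have hT : ((B + 3 * L + ρ : ℕ) : ℝ) * (3 / η + 1) < (q * Q : ℕ) := by
    refine hg.trans_le ?_
    exact_mod_cast hQ2.trans (Nat.le_mul_of_pos_left _ (by omega))
  have hn : L + n0 < p ^ (2 * k + g) * (p * p) ^ (L + n0 + 1) := by
    have a1 : L + n0 + 1 < (p * p) ^ (L + n0 + 1) := Nat.lt_pow_self (by omega)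
    have a2 : (p * p) ^ (L + n0 + 1) ≤ p ^ (2 * k + g) * (p * p) ^ (L + n0 + 1) :=
      Nat.le_mul_of_pos_left _ (by positivity)
    omega
  subst hQ
  refine ⟨⟨L, q, _, ρ, _, _, K, B, Φ, C, rd, lab, rep, nx, χ, h, hun, hq, hs, by positivity,
    by positivity, χ1, χ2, ?_, ⟨p ^ g, by rw [hN]; ring⟩, ?_, ?_⟩, ?_, ?_⟩
  · rw [mul_assoc]
    apply Nat.mul_dvd_mul_left
    obtain ⟨u, hu⟩ := hs.Kdvd
    refine ⟨u * p ^ (L + 1) * (p * p) ^ n0, ?_⟩
    have : (p * p) ^ (L + n0 + 1) = p * (K * u) * p ^ (L + 1) * (p * p) ^ n0 := by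
      rw [← hu]; ring
    rw [this]; ring
  · have : ((B + 3 * L : ℕ) : ℝ) ≤ (q * (p ^ (2 * k + g) * p) : ℕ) := by
      refine le_trans ?_ hT.le
      have : (0 : ℝ) ≤ ((B + 3 * L + ρ : ℕ) : ℝ) * (3 / η) := by positivity
      have : ((B + 3 * L : ℕ) : ℝ) ≤ ((B + 3 * L + ρ : ℕ) : ℝ) := by
        exact_mod_cast Nat.le_add_right _ _
      linarith
    exact_mod_cast this
  · nlinarith
  · show n0 ≤ q * (p ^ (2 * k + g) * (p * p) ^ (L + n0 + 1))
    nlinarith
  · show ((p ^ (2 * k + g) * p + (B + L) + L + ρ * (q * (p ^ (2 * k + g) * p) / L + 1) : ℕ) : ℝ)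
      < η * (q * (p ^ (2 * k + g) * p) : ℕ)
    set Q := p ^ (2 * k + g) * p with hQ
    have hQ0 : (0 : ℝ) < Q := by rw [hQ]; positivity
    have hq0 : (0 : ℝ) < q := by positivity
    have a1 : (Q : ℝ) ≤ η / 3 * (q * Q : ℕ) := by
      have b1 : (N : ℝ) ^ j ≤ q := by
        rw [hq']; push_cast
        exact pow_le_pow_right₀ (by linarith) (by omega)
      have b2 : (1 : ℝ) ≤ η / 3 * q := by
        have : 3 / η ≤ q := hj.le.trans b1
        rw [div_le_iff₀ hη] at this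
        linarith
      push_cast
      nlinarith
    have a2 : ((ρ * (q * Q / L) : ℕ) : ℝ) ≤ η / 3 * (q * Q : ℕ) := by
      have b1 : ((q * Q / L : ℕ) : ℝ) ≤ (q * Q : ℕ) / L := Nat.cast_div_le
      have b2 : (ρ : ℝ) / L ≤ η / 3 := by
        refine le_trans ?_ hk.le
        have c1 : ρ ≤ q * ((N - 1) ^ k * N) := by rw [hρ]; gcongr; omega
        have c2 : (ρ : ℝ) ≤ q * (((N : ℝ) - 1) ^ k * N) := by
          have := (Nat.cast_le (α := ℝ)).2 c1
          push_cast [Nat.cast_sub (show 1 ≤ N by omega)] at this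
          exact this
        rw [hL, div_pow, div_le_div_iff₀ (by positivity) (by positivity)]
        push_cast
        calc (ρ : ℝ) * N ^ k ≤ q * (((N : ℝ) - 1) ^ k * N) * N ^ k := by gcongr
          _ = _ := by ring
      calc ((ρ * (q * Q / L) : ℕ) : ℝ) = ρ * ((q * Q / L : ℕ) : ℝ) := by push_cast; rfl
        _ ≤ ρ * ((q * Q : ℕ) / L) := by gcongr
        _ = ρ / L * (q * Q : ℕ) := by ring
        _ ≤ η / 3 * (q * Q : ℕ) := by gcongr
    have a3 : ((B + 2 * L + ρ : ℕ) : ℝ) < η / 3 * (q * Q : ℕ) := by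
      have b1 : ((B + 2 * L + ρ : ℕ) : ℝ) ≤ ((B + 3 * L + ρ : ℕ) : ℝ) := by
        exact_mod_cast (by omega)
      have b2 : ((B + 3 * L + ρ : ℕ) : ℝ) * (3 / η) < (q * Q : ℕ) := by
        have : (0 : ℝ) ≤ ((B + 3 * L + ρ : ℕ) : ℝ) := by positivity
        linarith
      have b3 : ((B + 3 * L + ρ : ℕ) : ℝ) = η / 3 * (((B + 3 * L + ρ : ℕ) : ℝ) * (3 / η)) := by
        field_simp
      rw [b3] at b1
      exact b1.trans_lt (by gcongr)
    have : ((Q + (B + L) + L + ρ * (q * Q / L + 1) : ℕ) : ℝ) =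
        Q + ((ρ * (q * Q / L) : ℕ) : ℝ) + ((B + 2 * L + ρ : ℕ) : ℝ) := by
      rw [← Nat.cast_add, ← Nat.cast_add]
      congr 1; ring
    rw [this]
    linarith

theorem main_all {A : Type*} [Fintype A] (h2 : 2 ≤ Fintype.card A)
    (ε : ℝ) (h0 : 0 < ε) (h1 : ε < 1) (n0 : ℕ) : ∃ n, n0 ≤ n ∧ ∃ (w : List (Option A)) (d : ℕ),
      IsUniversal n w ∧ ¬ IsTrivial n w ∧ HasDiamondicity n w d ∧ ε * n < d := by
  obtain ⟨p, hp, r, hr⟩ := Nat.exists_prime_and_dvd (show Fintype.card A ≠ 1 by omega)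
  have : Fact p.Prime := ⟨hp⟩
  obtain ⟨c, hc1, hc2⟩ := exists_gpar hp (1 - ε) (by linarith) n0
  obtain ⟨e⟩ : Nonempty (A ≃ ZMod p × Fin r) := Fintype.card_eq.1 (by simp [hr])
  have hn := c.hn'
  have hL := c.h.Lpos
  obtain ⟨a0⟩ : Nonempty A := Fintype.card_pos_iff.1 (by omega)
  obtain ⟨w, hw1, hw2⟩ := exists_upword (n := c.n) a0 (by omega) c.hp _ _ 
    (good_prod (by omega) c.good e)
  obtain ⟨m, hm⟩ : c.q * c.Q ∣ c.n := (dvd_mul_right _ _).trans c.hp
  have hm0 : 0 < m := by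
    rcases Nat.eq_zero_or_pos m with rfl | h
    · omega
    · exact h
  have hcnt := c.count_S m
  rw [← hm] at hcnt
  have hsum := @count_not (fun i : ℕ => c.S (i : ZMod (c.q * c.Q * c.K))) inferInstance
    inferInstance c.n
  have hpos : 0 < Nat.count (fun i : ℕ => c.S (i : ZMod (c.q * c.Q * c.K))) c.n := by
    rw [Nat.pos_iff_ne_zero, Ne, Nat.count_iff_forall_not]
    exact fun h => h 0 (by omega) c.S_zero
  have hlt : ε * c.n < Nat.count (fun i : ℕ => ¬ c.S (i : ZMod (c.q * c.Q * c.K))) c.n := by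
    have a1 : ((Nat.count (fun i : ℕ => c.S (i : ZMod (c.q * c.Q * c.K))) c.n : ℕ) : ℝ) <
        (1 - ε) * c.n := by
      refine lt_of_le_of_lt (Nat.cast_le.2 hcnt) ?_
      rw [Nat.cast_mul, hm, Nat.cast_mul (c.q * c.Q), ← mul_assoc]
      have : (0 : ℝ) < m := by exact_mod_cast hm0
      gcongr
    have a2 := congrArg (Nat.cast (R := ℝ)) hsum
    push_cast at a2
    linarith
  refine ⟨c.n, hc1, w, _, hw1, not_trivial a0 hw1 hw2 ?_ (by omega), hw2, hlt⟩
  have : (0 : ℝ) < ε * c.n := by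
    have : (0 : ℝ) < c.n := by exact_mod_cast (by omega)
    positivity
  exact_mod_cast this.trans hlt

end Pool.Agent.P.MP_1a637f_co.G
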