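import Pool.Agent.P.MP_1a637f_co.G.Cube

/-! The quadratic clock on words of length `a * a`. -/

set_option linter.unusedSectionVars false

namespace Pool.Agent.P.MP_1a637f_co.G

open Classical W Finset

variable {a : ℕ}

/-- Indicator of the non-multiples of `a`. -/
def chi (a : ℕ) (d : ℤ) : ZMod a := if (d : ZMod a) = 0 then 0 else 1

theorem chi_congr {d e : ℤ} (h : (d : ZMod a) = e) : chi a d = chi a e := by
  unfold chi; rw [h]

theorem chi_neg (d : ℤ) : chi a (-d) = chi a d := by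
  unfold chi; simp

theorem sum_chi [NeZero a] : ∑ m ∈ range a, chi a m = -1 := by
  obtain ⟨n, rfl⟩ : ∃ n, a = n + 1 := ⟨a - 1, by have := NeZero.pos a; omega⟩
  rw [sum_range_succ', sum_congr rfl (g := fun _ => (1 : ZMod (n + 1)))]
  · have : ((n + 1 : ℕ) : ZMod (n + 1)) = 0 := ZMod.natCast_self _
    push_cast at this
    simp [chi]
    linear_combination this
  · intro m hm
    unfold chi
    rw [if_neg]
    rw [Int.cast_natCast, ZMod.natCast_eq_zero_iff]
    exact Nat.not_dvd_of_pos_of_lt (by omega) (by simpa using hm)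

theorem sum_chi_mul [NeZero a] (k : ℕ) : ∑ m ∈ range (a * k), chi a m = -k := by
  induction k with
  | zero => simp
  | succ k ih =>
    rw [mul_add, mul_one, sum_range_add, ih,
      sum_congr rfl (g := fun m : ℕ => chi a m) (fun m _ => chi_congr (by simp)), sum_chi]
    push_cast; ring

/-- The slope of the clock in the direction of the first letter. -/
def lam (z : W a (a * a)) : ZMod a := 1 + ∑ m ∈ range (a * a), chi a m * z.1 m

/-- Linear coefficients. -/
def ell (a m : ℕ) : ZMod a := 1 + ∑ k ∈ range (m + 1), chi a k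

/-- The quadratic clock. -/
def bq (z : W a (a * a)) : ZMod a :=
  ∑ m ∈ range (a * a), z.1 m * (ell a m + ∑ k ∈ range m, chi a ((m : ℤ) - k) * z.1 k)

theorem lam_split {n : ℕ} (hn : a * a = n + 1) (z : W a (a * a)) :
    lam z = 1 + ∑ m ∈ range n, chi a (m + 1) * z.1 (m + 1) := by
  unfold lam
  rw [show range (a * a) = range (n + 1) by rw [hn], sum_range_succ']
  simp [chi]

theorem bq_split {n : ℕ} (hn : a * a = n + 1) (z : W a (a * a)) :
    bq z = z.1 0 * lam z + ∑ m ∈ range n, z.1 (m + 1) *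
      (ell a (m + 1) + ∑ k ∈ range m, chi a ((m : ℤ) - k) * z.1 (k + 1)) := by
  rw [lam_split hn]
  unfold bq
  rw [show range (a * a) = range (n + 1) by rw [hn], sum_range_succ', mul_add (z.1 0) 1, mul_sum,
    add_assoc, ← sum_add_distrib, add_comm]
  congr 1
  · simp [ell, chi]
  · refine sum_congr rfl (fun m _ => ?_)
    rw [sum_range_succ']
    push_cast
    simp only [add_sub_add_right_eq_sub, sub_zero]
    ring

variable [NeZero a]

theorem aa_pos : 0 < a * a := Nat.mul_pos (NeZero.pos a) (NeZero.pos a)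

theorem bq_sh (z : W a (a * a)) : bq (sh 1 z) = bq z + 1 := by
  obtain ⟨n, hn⟩ : ∃ n, a * a = n + 1 := ⟨a * a - 1, by have := aa_pos (a := a); omega⟩
  rw [bq_split hn z, lam_split hn]
  unfold bq
  rw [show range (a * a) = range (n + 1) by rw [hn], sum_range_succ]
  have e1 : ell a n = 1 := by
    unfold ell; rw [← hn, sum_chi_mul]; simp
  have e2 : (sh 1 z).1 n = z.1 0 + 1 := by
    rw [sh_apply, ← z.2]; congr 1; rw [hn]; push_cast; ring
  have e3 : ∑ k ∈ range n, chi a ((n : ℤ) - k) * (sh 1 z).1 k =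
      ∑ m ∈ range n, chi a (m + 1) * z.1 (m + 1) := by
    refine sum_congr rfl (fun m _ => ?_)
    rw [sh_apply, ← chi_neg (m + 1)]
    congr 1
    apply chi_congr
    have : ((a * a : ℕ) : ZMod a) = 0 := by simp
    rw [hn] at this
    push_cast at this ⊢
    linear_combination this
  have e4 : ∑ m ∈ range n, (sh 1 z).1 m *
      (ell a m + ∑ k ∈ range m, chi a ((m : ℤ) - k) * (sh 1 z).1 k) =
      ∑ m ∈ range n, z.1 (m + 1) *
      (ell a (m + 1) + ∑ k ∈ range m, chi a ((m : ℤ) - k) * z.1 (k + 1)) -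
      ∑ m ∈ range n, chi a (m + 1) * z.1 (m + 1) := by
    rw [← sum_sub_distrib]
    refine sum_congr rfl (fun m _ => ?_)
    simp only [sh_apply, ell]
    rw [sum_range_succ _ (m + 1)]
    push_cast; ring
  rw [e1, e2, e3, e4]; ring

theorem lam_bump (j : ℤ) (t : ZMod a) (z : W a (a * a)) :
    lam (bump j t z) = lam z + chi a j * t := by
  obtain ⟨i, hi, e⟩ := exists_nat (aa_pos (a := a)) j
  have hd : ((a * a : ℕ) : ℤ) ∣ j - i := by rw [e, Int.emod_def]; simp
  unfold lam
  rw [bump_congr hd]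
  simp only [bump_apply, mul_add, sum_add_distrib]
  rw [add_assoc, sum_eq_single i (f := fun m : ℕ => chi a m *
    if ((a * a : ℕ) : ℤ) ∣ (m : ℤ) - i then t else 0)]
  · rw [chi_congr (cast_eq_of_dvd (dvd_mul_right a a) hd)]; simp
  · intro m hm hne
    rw [if_neg (not_dvd_of_lt (by simpa using hm) hi hne), mul_zero]
  · intro h; exact absurd (by simpa using hi) h

theorem bq_bump0 (t : ZMod a) (z : W a (a * a)) : bq (bump 0 t z) = bq z + t * lam z := by
  obtain ⟨n, hn⟩ : ∃ n, a * a = n + 1 := ⟨a * a - 1, by have := aa_pos (a := a); omega⟩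
  have e : ∀ m : ℕ, m < n → (bump 0 t z).1 (m + 1) = z.1 (m + 1) := fun m hm =>
    bump_apply_of_not (by
      have := not_dvd_of_lt (L := a * a) (i := m + 1) (j := 0) (by omega) (by omega) (by omega)
      simpa using this) _ _
  rw [bq_split hn, bq_split hn z, lam_bump, bump_apply_self,
    sum_congr rfl (g := fun m : ℕ => z.1 (m + 1) *
      (ell a (m + 1) + ∑ k ∈ range m, chi a ((m : ℤ) - k) * z.1 (k + 1)))]
  · simp [chi]; ring
  · intro m hm
    rw [mem_range] at hm
    rw [e m hm, sum_congr rfl (fun k hk => by rw [e k (by rw [mem_range] at hk; omega)])]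

theorem lam_sh (z : W a (a * a)) : lam (sh a z) = lam z - 1 := by
  have h1 := sum_range_add (fun m : ℕ => chi a m * z.1 m) a (a * a)
  have h2 := sum_range_add (fun m : ℕ => chi a m * z.1 m) (a * a) a
  rw [add_comm (a * a) a, h1] at h2
  have e1 : ∑ m ∈ range (a * a), chi a ((a + m : ℕ) : ℤ) * z.1 ((a + m : ℕ) : ℤ) =
      ∑ m ∈ range (a * a), chi a m * (sh a z).1 m :=
    sum_congr rfl (fun m _ => by
      rw [sh_apply, chi_congr (e := m) (by simp)]; push_cast; rw [add_comm])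
  have e2 : ∑ m ∈ range a, chi a ((a * a + m : ℕ) : ℤ) * z.1 ((a * a + m : ℕ) : ℤ) =
      ∑ m ∈ range a, chi a m * z.1 m + ∑ m ∈ range a, chi a m := by
    rw [← sum_add_distrib]
    refine sum_congr rfl (fun m _ => ?_)
    rw [chi_congr (e := m) (by simp), Nat.cast_add, add_comm, z.2]; ring
  rw [e1, e2, sum_chi] at h2
  unfold lam
  linear_combination h2

/-- The slope of the clock in the direction `i`. -/
def dq (i : ℤ) (z : W a (a * a)) : ZMod a := lam (sh i z)

theorem dq_zero (z : W a (a * a)) : dq 0 z = lam z := by simp [dq]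

theorem bq_bump (i : ℤ) (t : ZMod a) (z : W a (a * a)) : bq (bump i t z) = bq z + t * dq i z := by
  have h1 := clk_sh bq_sh i (bump i t z)
  rw [sh_bump, sub_self, bq_bump0, clk_sh bq_sh] at h1
  unfold dq
  linear_combination -h1

theorem dq_bump (i j : ℤ) (t : ZMod a) (z : W a (a * a)) :
    dq i (bump j t z) = dq i z + if (j : ZMod a) = i then 0 else t := by
  unfold dq
  rw [sh_bump, lam_bump]
  unfold chi
  push_cast
  simp only [sub_eq_zero]
  split_ifs <;> simp

theorem dq_add (i : ℤ) (k : ℕ) (z : W a (a * a)) : dq (i + a * k) z = dq i z - k := by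
  induction k with
  | zero => simp
  | succ k ih =>
    unfold dq at *
    rw [show i + a * ((k + 1 : ℕ) : ℤ) = a + (i + a * k) by push_cast; ring, ← sh_sh, lam_sh, ih]
    push_cast; ring

theorem exists_dq (z : W a (a * a)) (c r : ZMod a) : ∃ j : ℤ, (j : ZMod a) = c ∧ dq j z = r :=
  ⟨c.val + a * (dq c.val z - r).val, by simp, by rw [dq_add]; simp⟩

theorem dq_congr {z y : W a (a * a)} {i : ℤ}
    (h : ∀ m : ℤ, (m : ZMod a) ≠ i → z.1 m = y.1 m) : dq i z = dq i y := by
  unfold dq lam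
  congr 1
  refine sum_congr rfl (fun m _ => ?_)
  unfold chi
  split_ifs with hm
  · simp
  · rw [sh_apply, sh_apply, h]
    push_cast at hm ⊢
    simpa using hm

theorem mv {β : ZMod a} {z w : W a (a * a)} (h : Path (fun x => bq x = β) z w) (hz : bq z = β)
    (j : ℤ) (t : ZMod a) (hj : dq j w = 0) : Path (fun x => bq x = β) z (bump j t w) :=
  h.tail ⟨h.last hz, by
    beta_reduce
    rw [bq_bump, hj, h.last hz]; simp, j, t, rfl⟩

theorem bump_ind {L : ℕ} (j : ℤ) (t : ZMod a) (x : W a L) (i : ℤ) :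
    (bump j t x).1 i = x.1 i + (if (L : ℤ) ∣ i - j then 1 else 0) * t := by
  rw [bump_apply]; split_ifs <;> simp

theorem loop (h1 : (1 : ZMod a) ≠ 0) {β : ZMod a} {z : W a (a * a)} (hz : bq z = β)
    {c r s : ZMod a} {i i' i0 i1 : ℤ} (c1 : (i : ZMod a) = c) (c2 : (i' : ZMod a) = c)
    (c3 : (i0 : ZMod a) = c) (c4 : (i1 : ZMod a) = c) (d1 : dq i z = r + 1) (d2 : dq i' z = r)
    (d3 : dq i0 z = 0) (d4 : dq i1 z = 1) : Path (fun x => bq x = β) z
      (bump i s (bump i' (-s) (bump i1 (-s) (bump i0 s z)))) := by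
  obtain ⟨j, c5, d5⟩ := exists_dq z (c + 1) 0
  obtain ⟨k, c6, d6⟩ := exists_dq z (c + 1) (-s)
  have n1 : c + 1 ≠ c := by simpa using h1
  have n2 : c ≠ c + 1 := n1.symm
  have p1 := mv (.refl) hz j (-(r + 1)) d5
  have p2 := mv p1 hz i s (by simp [dq_bump, *])
  have p3 := mv p2 hz k 1 (by simp [dq_bump, *])
  have p4 := mv p3 hz i' (-s) (by simp [dq_bump, *])
  have p5 := mv p4 hz j r (by simp [dq_bump, *])
  have p6 := mv p5 hz i0 s (by simp [dq_bump, *])
  have p7 := mv p6 hz k (-1) (by simp [dq_bump, *])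
  have p8 := mv p7 hz i1 (-s) (by simp [dq_bump, *])
  have p9 := mv p8 hz j 1 (by simp [dq_bump, *])
  convert p9 using 1
  apply ext'
  intro m
  simp only [bump_ind]
  ring

theorem pair_move (h1 : (1 : ZMod a) ≠ 0) {β : ZMod a} (s : ZMod a) {i1 : ℤ} (r : ℕ) :
    ∀ (z : W a (a * a)) (i : ℤ), bq z = β → (i : ZMod a) = i1 → dq i z = r → dq i1 z = 1 →
      Path (fun x => bq x = β) z (bump i1 (-(s * r)) (bump i s z)) := by
  induction r with
  | zero =>
    intro z i hz _ d1 _
    simpa using mv (.refl) hz i s (by simpa using d1)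
  | succ r ih =>
    intro z i hz c1 d1 d4
    obtain ⟨i', c2, d2⟩ := exists_dq z i1 r
    obtain ⟨i0, c3, d3⟩ := exists_dq z i1 0
    have p1 := loop (s := s) h1 hz c1 c2 c3 rfl (by rw [d1]; push_cast; rfl) d2 d3 d4
    have p2 := p1.trans (ih _ i' (p1.last hz) c2 (by simp [dq_bump, *]) (by simp [dq_bump, *]))
    have p3 := mv p2 hz i0 (-s) (by simp [dq_bump, *])
    convert p3 using 1
    apply ext'
    intro m
    simp only [bump_ind]
    push_cast; ring

omit [NeZero a] in
theorem sweep {L : ℕ} {P G : W a L → Prop} (y : W a L) (S : ℕ → Prop)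
    (step : ∀ z (k : ℕ), G z → k < L → S k → ∃ z', Path P z z' ∧ G z' ∧ z'.1 k = y.1 k ∧
      ∀ m : ℕ, m < L → m ≠ k → S m → z'.1 m = z.1 m) (z : W a L) (hz : G z) :
    ∃ z', Path P z z' ∧ G z' ∧ ∀ m : ℕ, m < L → S m → z'.1 m = y.1 m := by
  have : ∀ k : ℕ, k ≤ L → ∃ z', Path P z z' ∧ G z' ∧ ∀ m : ℕ, m < k → S m → z'.1 m = y.1 m := by
    intro k
    induction k with
    | zero => exact fun _ => ⟨z, .refl, hz, fun m hm => by omega⟩
    | succ k ih =>
      intro hk
      obtain ⟨z1, p1, g1, e1⟩ := ih (by omega)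
      by_cases hS : S k
      · obtain ⟨z2, p2, g2, e2, e3⟩ := step z1 k g1 (by omega) hS
        refine ⟨z2, p1.trans p2, g2, fun m hm hm' => ?_⟩
        by_cases e : m = k
        · rw [e, e2]
        · rw [e3 m (by omega) e hm', e1 m (by omega) hm']
      · refine ⟨z1, p1, g1, fun m hm hm' => e1 m ?_ hm'⟩
        by_contra h
        exact hS ((show m = k by omega) ▸ hm')
  exact this L le_rfl

theorem agree_int {L : ℕ} (hL : 0 < L) {v v' : W a L} (p : ℤ → Prop)
    (hp : ∀ i, p i → p (i % L)) (h : ∀ i : ℕ, i < L → p i → v'.1 i = v.1 i) (i : ℤ) (hi : p i) :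
    v'.1 i = v.1 i := by
  rw [← mod_iff]
  obtain ⟨j, hj, e⟩ := exists_nat hL i
  rw [← e]
  exact h j hj (e ▸ hp i hi)

theorem bq_conn (h1 : (1 : ZMod a) ≠ 0) (β : ZMod a) : Conn (fun x : W a (a * a) => bq x = β) := by
  intro x y hx hy
  have hN := aa_pos (a := a)
  obtain ⟨z1, p1, g1, e1⟩ := sweep (P := fun x => bq x = β) (G := fun x => bq x = β) y
    (fun m => (m : ZMod a) ≠ 0) (by
      intro z k hz hk hS
      obtain ⟨j, c1, d1⟩ := exists_dq z 0 0
      have q1 := mv (.refl) hz j (-dq k z) d1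
      have q2 := mv q1 hz k (y.1 k - z.1 k) (by
        rw [dq_bump, c1, if_neg (by simpa using hS.symm)]; ring)
      have nd : ∀ m : ℕ, (m : ZMod a) ≠ 0 → ¬ ((a * a : ℕ) : ℤ) ∣ m - j := fun m hm hd =>
        hm (by simpa [c1] using cast_eq_of_dvd (dvd_mul_right a a) hd)
      refine ⟨_, q2, q2.last hz, ?_, fun m hm hne hm' => ?_⟩
      · rw [bump_apply_self, bump_apply_of_not (nd k hS)]; ring
      · rw [bump_apply_of_not (not_dvd_of_lt hm hk hne), bump_apply_of_not (nd m hm')]) x hx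
  obtain ⟨i1, c1, d1⟩ := exists_dq y 0 1
  have off : ∀ z : W a (a * a), (∀ m : ℕ, m < a * a → (m : ZMod a) ≠ 0 → z.1 m = y.1 m) →
      dq i1 z = 1 := by
    intro z hz
    rw [← d1]
    apply dq_congr
    rw [c1]
    refine agree_int hN (fun m => (m : ZMod a) ≠ 0) (fun i hi => ?_)
      (fun i hi hi' => hz i hi (by simpa using hi'))
    rwa [cast_eq_of_dvd (dvd_mul_right a a) (j := i) (by rw [Int.emod_def]; simp)]
  obtain ⟨z2, p2, ⟨g2, g3⟩, e2⟩ := sweep (P := fun x => bq x = β) (G := fun z => bq z = β ∧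
    ∀ m : ℕ, m < a * a → (m : ZMod a) ≠ 0 → z.1 m = y.1 m) y
    (fun m => ¬ ((a * a : ℕ) : ℤ) ∣ m - i1) (by
      rintro z k ⟨hz, hz'⟩ hk hS
      by_cases hk0 : (k : ZMod a) = 0
      · have q := pair_move h1 (y.1 k - z.1 k) (dq k z).val z k hz (by simp [hk0, c1]) (by simp)
          (off z hz')
        refine ⟨_, q, ⟨q.last hz, fun m hm hm' => ?_⟩, ?_, fun m hm hne hm' => ?_⟩
        · rw [bump_apply_of_not, bump_apply_of_not, hz' m hm hm']
          · exact not_dvd_of_lt hm hk (fun e => hm' (e ▸ hk0))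
          · exact fun hd => hm' (by simpa [c1] using cast_eq_of_dvd (dvd_mul_right a a) hd)
        · rw [bump_apply_of_not hS, bump_apply_self]; ring
        · rw [bump_apply_of_not hm', bump_apply_of_not (not_dvd_of_lt hm hk hne)]
      · exact ⟨z, .refl, ⟨hz, hz'⟩, hz' k hk hk0, fun _ _ _ _ => rfl⟩) z1 ⟨g1, e1⟩
  have e3 := eq_bump (x := z2) (y := y) i1 (fun i hi => (agree_int hN
    (fun m => ¬ ((a * a : ℕ) : ℤ) ∣ m - i1) (fun i hi hd => hi (by
      rw [← Int.emod_add_mul_ediv i (a * a : ℕ), add_sub_right_comm]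
      exact dvd_add hd (dvd_mul_right _ _))) e2 i hi).symm)
  have e4 := congrArg bq e3
  rw [bq_bump, off z2 g3, hy, g2, mul_one] at e4
  rw [show y.1 i1 - z2.1 i1 = 0 by linear_combination -e4, bump_zero] at e3
  exact e3 ▸ p1.trans p2

theorem bq_edge (z : W a (a * a)) (δ : ZMod a) :
    ∃ j, bq (bump j δ z) = bq z + δ ∧ lam (bump j δ z) = lam z := by
  obtain ⟨j, c1, d1⟩ := exists_dq z 0 1
  exact ⟨j, by rw [bq_bump, d1, mul_one], by rw [lam_bump]; simp [chi, c1]⟩

theorem exists_bq (h1 : (1 : ZMod a) ≠ 0) (β : ZMod a) (i : ℤ) :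
    ∃ z : W a (a * a), bq z = β ∧ dq i z = 0 := by
  let z0 : W a (a * a) := win _ aa_pos (fun _ => 0)
  let z1 := bump (i + 1) (-dq i z0) z0
  have d1 : dq i z1 = 0 := by
    rw [dq_bump, if_neg (by simpa using h1)]; ring
  obtain ⟨j, c2, d2⟩ := exists_dq z1 i 1
  exact ⟨bump j (β - bq z1) z1, by rw [bq_bump, d2]; ring, by rw [dq_bump, if_pos c2, d1]; simp⟩

end Pool.Agent.P.MP_1a637f_co.G
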