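import Pool.Agent.P.MP_1a637f_co.G.Step

/-! A schedule of switches that permutes the cells cyclically. -/

set_option linter.unusedSectionVars false

namespace Pool.Agent.P.MP_1a637f_co.G

open Classical W

variable {ℓ : ℕ}

/-- Take the positions `≡ -1 (mod q)` from `w` and the others from `a`. -/
noncomputable def mixw {L q : ℕ} (hq : q ∣ L) (a w : W ℓ L) : W ℓ L :=
  ⟨fun i => if (i : ZMod q) = -1 then w.1 i else a.1 i, fun i => by
    have : ((L : ℕ) : ZMod q) = 0 := (ZMod.natCast_eq_zero_iff L q).2 hq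
    push_cast
    rw [this, add_zero, w.2, a.2]
    split_ifs <;> rfl⟩

theorem mixw_apply {L q : ℕ} (hq : q ∣ L) (a w : W ℓ L) (i : ℤ) :
    (mixw hq a w).1 i = if (i : ZMod q) = -1 then w.1 i else a.1 i := rfl

theorem mixw_mixw {L q : ℕ} (hq : q ∣ L) (a w w' : W ℓ L) :
    mixw hq (mixw hq a w) w' = mixw hq a w' :=
  ext' (fun i => by simp only [mixw_apply]; split_ifs <;> rfl)

theorem mixw_mixw' {L q : ℕ} (hq : q ∣ L) (a a' w : W ℓ L) :
    mixw hq a (mixw hq a' w) = mixw hq a w :=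
  ext' (fun i => by simp only [mixw_apply]; split_ifs <;> rfl)

theorem mixw_self {L q : ℕ} (hq : q ∣ L) (a : W ℓ L) : mixw hq a a = a :=
  ext' (fun i => by simp only [mixw_apply]; split_ifs <;> rfl)

theorem mixw_bump_of_eq {L q : ℕ} (hq : q ∣ L) (a w : W ℓ L) {j : ℤ} (t : ZMod ℓ)
    (hj : (j : ZMod q) = -1) : mixw hq (bump j t a) w = mixw hq a w :=
  ext' (fun i => by
    simp only [mixw_apply, bump_apply]
    split_ifs with h1 h2
    · rfl
    · exact absurd ((cast_eq_of_dvd hq h2).trans hj) h1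
    · exact add_zero _)

theorem mixw_bump_of_ne {L q : ℕ} (hq : q ∣ L) (a w : W ℓ L) {j : ℤ} (t : ZMod ℓ)
    (hj : (j : ZMod q) ≠ -1) : mixw hq (bump j t a) w = bump j t (mixw hq a w) :=
  ext' (fun i => by
    simp only [mixw_apply, bump_apply]
    split_ifs with h1 h2
    · exact absurd ((cast_eq_of_dvd hq h2).symm.trans h1) hj
    · exact (add_zero _).symm
    · rfl
    · rfl)

/-- The output of the scheduling construction. -/
structure GSched {L q : ℕ} (P : ℕ) (Φ : W ℓ L → ZMod q) (C : W ℓ L → W ℓ L → Prop) (K B : ℕ)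
    (lab : ℕ → W ℓ L → ZMod K) (rep : ZMod K → W ℓ L) (nx : ℕ → W ℓ L → W ℓ L) : Prop where
  Kpos : 0 < K
  Kdvd : K ∣ ℓ ^ L
  nx_bump : ∀ (σ : ℕ) v, Φ v = σ → ∃ t, nx σ v = bump 0 t v
  nx_Φ : ∀ (σ : ℕ) v, Φ v = σ → Φ (nx σ v) = σ
  nx_lab : ∀ (σ : ℕ) v, Φ v = σ → lab (σ + 1) (sh 1 (nx σ v)) = lab σ v
  nx_inj : ∀ (σ : ℕ) v v', Φ v = σ → Φ v' = σ → nx σ v = nx σ v' → v = v'
  nx_ref : ∀ (σ : ℕ) v, Φ v = σ → (σ : ZMod q) = -1 → nx σ v = v
  free : ∀ (σ : ℕ) v v', Φ v = σ → (∀ i : ℤ, (σ : ZMod q) + i ≠ -1 → v'.1 i = v.1 i) →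
    lab σ v' = lab σ v
  cell : ∀ σ : ℕ, B ≤ σ → ∀ v v', Φ v = σ → Φ v' = σ → (lab σ v = lab σ v' ↔ C v v')
  stay : ∀ σ : ℕ, B ≤ σ → ∀ v, Φ v = σ → lab (σ + 1) (sh 1 v) = lab σ v
  wrap : ∀ σ : ℕ, B ≤ σ → P ∣ σ → q ∣ σ → ∀ v, Φ v = 0 → lab 0 v = lab σ v + 1
  rep : ∀ σ : ℕ, B ≤ σ → ∀ v, Φ v = σ → C (sh σ (rep (lab σ v))) v

section
variable {L q P ρ : ℕ} {Φ : W ℓ L → ZMod q} {C : W ℓ L → W ℓ L → Prop}
  {rd : W ℓ L → Prop}

theorem GS.C_free (h : GS ℓ L q P ρ Φ C rd) (hun : ∀ x, Φ x = -1 → ¬ rd x) {v v' : W ℓ L}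
    (hv : ∀ i : ℤ, Φ v + i ≠ -1 → v'.1 i = v.1 i) : C v v' :=
  h.junta _ _ (fun i hi => hv i (fun e => hun _ (by rw [clk_sh h.Φ_sh, e]) hi))

theorem GS.C_mul (h : GS ℓ L q P ρ Φ C rd) (m : ℕ) (x : W ℓ L) : C x (sh (P * m : ℕ) x) := by
  induction m with
  | zero => simpa using h.C_refl x
  | succ m ih =>
    refine h.C_trans _ _ _ ih ?_
    have := h.C_P (sh (P * m : ℕ) x)
    rw [sh_sh] at this
    convert this using 2
    push_cast; ring

theorem exists_gsched [NeZero ℓ] (h : GS ℓ L q P ρ Φ C rd) (hun : ∀ x, Φ x = -1 → ¬ rd x) (hq : q ∣ L) :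
    ∃ K B lab rep nx, GSched P Φ C K B lab rep nx := by
  have hL := h.Lpos
  have : NeZero q := ⟨h.qpos.ne'⟩
  have hfin := W.finite (a := ℓ) hL
  have hsh := clk_sh h.Φ_sh
  let o : W ℓ L := win L hL (fun _ => 0)
  have hmix : ∀ v w, Φ v = 0 → C v (mixw hq v w) := by
    intro v w hv
    apply h.C_free hun
    intro i hi
    rw [mixw_apply, if_neg (by simpa [hv] using hi)]
  let E := {a : W ℓ L // Φ a = 0 ∧ mixw hq a o = a}
  let nz : ∀ v, Φ v = 0 → E := fun v hv =>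
    ⟨mixw hq v o, (h.C_Φ _ _ (hmix v o hv)).symm.trans hv, mixw_mixw _ _ _ _⟩
  have hnz : ∀ v hv, C v (nz v hv).1 := fun v hv => hmix v o hv
  have hnzE : ∀ a : E, nz a.1 a.2.1 = a := fun a => Subtype.ext a.2.2
  let st : Setoid E := ⟨fun a a' => C a.1 a'.1,
    ⟨fun a => h.C_refl _, fun h' => h.C_symm _ _ h', fun h1 h2 => h.C_trans _ _ _ h1 h2⟩⟩
  have hE : Nonempty E := ⟨nz (sh (-((Φ o).val : ℤ)) o) (by rw [hsh]; simp)⟩
  have hQ : Nonempty (Quotient st) := ⟨Quotient.mk st hE.some⟩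
  let K := Nat.card (Quotient st)
  have hK : 0 < K := Nat.card_pos
  have : NeZero K := ⟨hK.ne'⟩
  obtain ⟨e⟩ : Nonempty (Quotient st ≃ ZMod K) := Finite.card_eq.1 (by simp [K])
  let lab0 : E → ZMod K := fun a => e (Quotient.mk st a)
  have hlab0 : ∀ a a', lab0 a = lab0 a' ↔ C a.1 a'.1 := by
    intro a a'
    simp only [lab0, EmbeddingLike.apply_eq_iff_eq]
    exact Quotient.eq
  have hsurj : ∀ k, ∃ a, lab0 a = k := by
    intro k
    obtain ⟨a, ha⟩ := Quotient.exists_rep (e.symm k)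
    exact ⟨a, by simp [lab0, ha]⟩
  choose r0 hr0 using hsurj
  obtain ⟨s, hs⟩ := h.card_C
  -- equal fibre sizes
  have hfib : ∀ k, Nat.card {a // lab0 a = k} * Nat.card {w // mixw hq o w = w} = s := by
    intro k
    rw [← hs (r0 k).1, ← Nat.card_prod]
    symm
    have hΦ : ∀ y : {y // C (r0 k).1 y}, Φ y.1 = 0 :=
      fun y => (h.C_Φ _ _ y.2).symm.trans (r0 k).2.1
    refine Nat.card_eq_of_bijective (fun y => (⟨nz y.1 (hΦ y), ?_⟩,
      ⟨mixw hq o y.1, mixw_mixw' _ _ _ _⟩)) ⟨?_, ?_⟩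
    · exact ((hlab0 _ _).2 (h.C_symm _ _ (h.C_trans _ _ _ y.2 (hnz _ (hΦ y))))).trans (hr0 k)
    · intro y z hyz
      simp only [Prod.mk.injEq, Subtype.mk.injEq, nz] at hyz
      apply Subtype.ext
      have e1 : ∀ y : W ℓ L, y = mixw hq (mixw hq y o) (mixw hq o y) := fun y => by
        rw [mixw_mixw, mixw_mixw', mixw_self]
      have e2 : mixw hq y.1 o = mixw hq z.1 o := congrArg Subtype.val hyz.1
      rw [e1 y.1, e1 z.1, e2, hyz.2]
    · rintro ⟨⟨a, ha⟩, ⟨w, hw⟩⟩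
      refine ⟨⟨mixw hq a.1 w, ?_⟩, ?_⟩
      · rw [← hr0 k, hlab0] at ha
        exact h.C_trans _ _ _ (h.C_symm _ _ ha) (hmix _ _ a.2.1)
      · simp only [Prod.mk.injEq, Subtype.mk.injEq, nz]
        refine ⟨Subtype.ext ?_, ?_⟩
        · simp only
          rw [mixw_mixw, a.2.2]
        · rw [mixw_mixw', hw]
  have hf : 0 < Nat.card {w // mixw hq o w = w} := by
    have : Nonempty {w // mixw hq o w = w} := ⟨⟨o, mixw_self _ _⟩⟩
    exact Nat.card_pos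
  have hfib' : ∀ k k', Nat.card {a // lab0 a = k} = Nat.card {a // lab0 a = k'} :=
    fun k k' => Nat.eq_of_mul_eq_mul_right hf ((hfib k).trans (hfib k').symm)
  have hg : ∃ g : Equiv.Perm E, ∀ a, lab0 (g a) = lab0 a - 1 := by
    have : ∀ k, Nonempty ({a // lab0 a - 1 = k} ≃ {a // lab0 a = k}) := by
      intro k
      rw [← Finite.card_eq, hfib' k (k + 1)]
      simp only [sub_eq_iff_eq_add]
    exact ⟨Equiv.ofFiberEquiv (fun k => (this k).some), fun a => Equiv.ofFiberEquiv_map _ a⟩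
  obtain ⟨g, hg⟩ := hg
  -- divisibility
  have hdvd : K ∣ ℓ ^ L := by
    have hz : ∀ v, Φ (sh (-((Φ v).val : ℤ)) v) = 0 := fun v => by rw [hsh]; simp
    have hfb : ∀ y, Nat.card {v // (Φ v, lab0 (nz _ (hz v))) = y} = s := by
      rintro ⟨r, k⟩
      rw [← hs (sh r.val (r0 k).1)]
      refine Nat.card_congr (Equiv.subtypeEquivRight (fun v => ?_))
      simp only [Prod.mk.injEq]
      constructor
      · rintro ⟨rfl, h2⟩
        rw [← hr0 k, hlab0] at h2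
        have := h.C_sh (Φ v).val _ _ (h.C_trans _ _ _ (hnz _ (hz v)) h2)
        rw [sh_sh, add_neg_cancel, sh_zero] at this
        exact h.C_symm _ _ this
      · intro h1
        have h2 : Φ v = r := by rw [← h.C_Φ _ _ h1, hsh, (r0 k).2.1]; simp
        refine ⟨h2, ?_⟩
        rw [← hr0 k, hlab0]
        have := h.C_sh (-((Φ v).val : ℤ)) _ _ h1
        rw [sh_sh, ← h2, neg_add_cancel, sh_zero] at this
        exact h.C_symm _ _ (h.C_trans _ _ _ this (hnz _ (hz v)))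
    have := card_of_fibers (fun v => (Φ v, lab0 (nz _ (hz v)))) s hfb
    rw [W.card hL, Nat.card_prod, Nat.card_zmod, Nat.card_zmod] at this
    exact ⟨q * s, by rw [this]; ring⟩
  -- token swapping
  let S : Set (Equiv.Perm E) :=
    {τ | ∃ (a a' : E) (j : ℤ) (t : ZMod ℓ), (j : ZMod q) ≠ -1 ∧ a'.1 = bump j t a.1 ∧
      τ = Equiv.swap a a'}
  have hswap : ∀ a a' : E, Equiv.swap a a' ∈ Subgroup.closure S := by
    intro a a'
    have : ∀ y, Path (fun x => Φ x = 0) a.1 y → ∀ hy, Equiv.swap a (nz y hy) ∈ Subgroup.closure S := by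
      intro y hp
      induction hp with
      | refl => intro hy; rw [hnzE, Equiv.swap_self]; exact one_mem _
      | tail _ h' ih =>
        obtain ⟨h1, h2, j, t, rfl⟩ := h'
        intro hy
        by_cases hj : (j : ZMod q) = -1
        · have : nz _ hy = nz _ h1 := Subtype.ext (mixw_bump_of_eq hq _ _ _ hj)
          rw [this]; exact ih h1
        · exact SubmonoidClass.swap_mem_trans _ (ih h1)
            (Subgroup.subset_closure ⟨_, _, j, t, hj, mixw_bump_of_ne hq _ _ _ hj, rfl⟩)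
    have := this _ (h.conn_Φ 0 _ _ a.2.1 a'.2.1) a'.2.1
    rwa [hnzE] at this
  have hgS : g ∈ Subgroup.closure S := by
    have : (⊤ : Subgroup (Equiv.Perm E)) ≤ Subgroup.closure S := by
      rw [← Equiv.Perm.closure_isSwap, Subgroup.closure_le]
      rintro τ ⟨a, a', -, rfl⟩
      exact hswap a a'
    exact this trivial
  have hsch : ∃ (B : ℕ) (A : ℕ → Equiv.Perm E), A 0 = 1 ∧ (∀ σ, B ≤ σ → A σ = g) ∧
      ∀ σ : ℕ, A (σ + 1) = A σ ∨ ∃ (a a' : E) (u : ZMod ℓ), (σ : ZMod q) ≠ -1 ∧ a'.1 = bump σ u a.1 ∧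
        A (σ + 1) = A σ * Equiv.swap a a' := by
    have ext : ∀ x y, y ∈ S → (∃ (B : ℕ) (A : ℕ → Equiv.Perm E), A 0 = 1 ∧
        (∀ σ, B ≤ σ → A σ = x) ∧ ∀ σ : ℕ, A (σ + 1) = A σ ∨ ∃ (a a' : E) (u : ZMod ℓ),
        (σ : ZMod q) ≠ -1 ∧ a'.1 = bump σ u a.1 ∧ A (σ + 1) = A σ * Equiv.swap a a') →
        ∃ (B : ℕ) (A : ℕ → Equiv.Perm E), A 0 = 1 ∧
        (∀ σ, B ≤ σ → A σ = x * y) ∧ ∀ σ : ℕ, A (σ + 1) = A σ ∨ ∃ (a a' : E) (u : ZMod ℓ),
        (σ : ZMod q) ≠ -1 ∧ a'.1 = bump σ u a.1 ∧ A (σ + 1) = A σ * Equiv.swap a a' := by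
      rintro x y ⟨a, a', j, u, hj, ha, rfl⟩ ⟨B, A, h0, h1, h2⟩
      obtain ⟨t, ht, htj⟩ : ∃ t : ℕ, B ≤ t ∧ (L : ℤ) ∣ t - j := by
        have h0 : 0 ≤ (j - B) % L := Int.emod_nonneg _ (by omega)
        refine ⟨B + ((j - B) % L).toNat, by omega, ?_⟩
        push_cast
        rw [Int.toNat_of_nonneg h0]
        refine ⟨-((j - B) / L), ?_⟩
        have := Int.emod_add_mul_ediv (j - B) L
        linarith
      refine ⟨t + 1, fun σ => if σ ≤ t then A σ else x * Equiv.swap a a', by simp [h0], ?_, ?_⟩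
      · intro σ hσ
        simp only
        rw [if_neg (by omega)]
      · intro σ
        simp only
        by_cases c1 : σ + 1 ≤ t
        · rw [if_pos c1, if_pos (by omega)]; exact h2 σ
        · by_cases c2 : σ ≤ t
          · have : σ = t := by omega
            subst this
            rw [if_neg c1, if_pos c2, h1 _ ht]
            refine Or.inr ⟨a, a', u, ?_, ?_, rfl⟩
            · have := cast_eq_of_dvd hq htj
              rw [Int.cast_natCast] at this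
              rwa [this]
            · rw [ha, bump_congr htj]
          · rw [if_neg c1, if_neg c2]; exact Or.inl rfl
    refine Subgroup.closure_induction_right (p := fun x _ => ∃ (B : ℕ) (A : ℕ → Equiv.Perm E),
      A 0 = 1 ∧ (∀ σ, B ≤ σ → A σ = x) ∧ ∀ σ : ℕ, A (σ + 1) = A σ ∨ ∃ (a a' : E) (u : ZMod ℓ),
        (σ : ZMod q) ≠ -1 ∧ a'.1 = bump σ u a.1 ∧ A (σ + 1) = A σ * Equiv.swap a a')
      ⟨0, fun _ => 1, rfl, fun _ _ => rfl, fun _ => Or.inl rfl⟩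
      (fun x _ y hy hx => ext x y hy hx) (fun x _ y hy hx => ?_) hgS
    have : y⁻¹ = y := by
      obtain ⟨a, a', j, u, -, -, rfl⟩ := hy
      exact Equiv.swap_inv _ _
    rw [this]; exact ext x y hy hx
  obtain ⟨B, A, hA0, hAB, hA⟩ := hsch
  have hz : ∀ (σ : ℕ) v, Φ v = σ → Φ (sh (-(σ : ℤ)) v) = 0 := fun σ v hv => by
    rw [hsh, hv]; simp
  let lab : ℕ → W ℓ L → ZMod K := fun σ v =>
    if hv : Φ v = σ then lab0 (A σ (nz _ (hz σ v hv))) else 0
  have hlab : ∀ (σ : ℕ) v (hv : Φ v = σ), lab σ v = lab0 (A σ (nz _ (hz σ v hv))) :=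
    fun σ v hv => dif_pos hv
  have hlab1 : ∀ (σ : ℕ) v (hv : Φ v = σ),
      lab (σ + 1) (sh 1 v) = lab0 (A (σ + 1) (nz _ (hz σ v hv))) := by
    intro σ v hv
    rw [hlab (σ + 1) (sh 1 v) (by rw [h.Φ_sh, hv]; simp)]
    congr 2
    apply Subtype.ext
    simp only [nz]
    rw [sh_sh]; push_cast; rw [show -((σ : ℤ) + 1) + 1 = -σ by ring]
  have hτ : ∀ σ : ℕ, ∃ τ : Equiv.Perm E, A (σ + 1) * τ = A σ ∧
      ((σ : ZMod q) = -1 → τ = 1) ∧ ∀ (a : E) w, ∃ u, mixw hq (τ a).1 w =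
        bump σ u (mixw hq a.1 w) := by
    intro σ
    rcases hA σ with e1 | ⟨a, a', u, hσ, ha, e1⟩
    · exact ⟨1, by rw [e1, mul_one], fun _ => rfl, fun a w => ⟨0, by simp⟩⟩
    · have hσ' : ((σ : ℤ) : ZMod q) ≠ -1 := by simpa using hσ
      refine ⟨Equiv.swap a a', by rw [e1, mul_assoc, Equiv.swap_mul_self, mul_one],
        fun h => absurd h hσ, fun e w => ?_⟩
      by_cases c1 : e = a
      · exact ⟨u, by rw [c1, Equiv.swap_apply_left, ha, mixw_bump_of_ne hq _ _ _ hσ']⟩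
      by_cases c2 : e = a'
      · exact ⟨-u, by
          rw [c2, Equiv.swap_apply_right, ha, mixw_bump_of_ne hq _ _ _ hσ', bump_neg]⟩
      · exact ⟨0, by rw [Equiv.swap_apply_of_ne_of_ne c1 c2, bump_zero]⟩
  choose τ hτ1 hτ2 hτ3 using hτ
  let nx : ℕ → W ℓ L → W ℓ L := fun σ v =>
    if hv : Φ v = σ then sh σ (mixw hq (τ σ (nz _ (hz σ v hv))).1 (sh (-(σ : ℤ)) v)) else v
  have hnx : ∀ (σ : ℕ) v (hv : Φ v = σ), sh (-(σ : ℤ)) (nx σ v) =
      mixw hq (τ σ (nz _ (hz σ v hv))).1 (sh (-(σ : ℤ)) v) := fun σ v hv => by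
    simp only [nx]
    rw [dif_pos hv, sh_sh]; simp
  have hnxΦ : ∀ (σ : ℕ) v, Φ v = σ → Φ (nx σ v) = σ := by
    intro σ v hv
    have h1 := hsh (-(σ : ℤ)) (nx σ v)
    rw [hnx σ v hv, ← h.C_Φ _ _ (hmix _ _ (τ σ _).2.1), (τ σ _).2.1] at h1
    push_cast at h1
    linear_combination -h1
  have hnxE : ∀ (σ : ℕ) v (hv : Φ v = σ), nz _ (hz σ _ (hnxΦ σ v hv)) =
      τ σ (nz _ (hz σ v hv)) := fun σ v hv => Subtype.ext (by
    simp only [nz] at hnx ⊢
    rw [hnx σ v hv, mixw_mixw]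
    exact (τ σ _).2.2)
  refine ⟨K, B, lab, fun k => (r0 (k + 1)).1, nx, hK, hdvd, ?_, hnxΦ, ?_, ?_, ?_, ?_, ?_, ?_, ?_,
    ?_⟩
  · intro σ v hv
    obtain ⟨u, hu⟩ := hτ3 σ (nz _ (hz σ v hv)) (sh (-(σ : ℤ)) v)
    refine ⟨u, sh_inj (-(σ : ℤ)) ?_⟩
    rw [hnx σ v hv, hu, sh_bump]
    simp only [nz]
    rw [mixw_mixw, mixw_self]; simp
  · intro σ v hv
    rw [hlab1 σ _ (hnxΦ σ v hv), hlab σ v hv, hnxE σ v hv, ← hτ1 σ, Equiv.Perm.mul_apply]
  · intro σ v v' hv hv' e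
    have e1 : nz _ (hz σ v hv) = nz _ (hz σ v' hv') := by
      apply (τ σ).injective
      rw [← hnxE σ v hv, ← hnxE σ v' hv']
      exact Subtype.ext (by simp only [nz]; rw [e])
    have e2 := (hnx σ v hv).symm.trans (e ▸ hnx σ v' hv')
    have e3 := congrArg (mixw hq (nz _ (hz σ v hv)).1) e2
    rw [mixw_mixw', mixw_mixw'] at e3
    nth_rewrite 2 [e1] at e3
    simp only [nz] at e3
    rw [mixw_mixw, mixw_mixw, mixw_self, mixw_self] at e3
    exact sh_inj _ e3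
  · intro σ v hv hσ
    apply sh_inj (-(σ : ℤ))
    rw [hnx σ v hv, hτ2 σ hσ, Equiv.Perm.one_apply]
    simp only [nz]
    rw [mixw_mixw, mixw_self]
  · intro σ v v' hv hvv
    have hv' : Φ v' = σ := by
      rw [← hv]; exact (h.C_Φ _ _ (h.C_free hun (by rwa [hv]))).symm
    rw [hlab σ v hv, hlab σ v' hv']
    congr 2
    apply Subtype.ext
    apply ext'
    intro i
    simp only [nz, mixw_apply, sh_apply]
    split_ifs with hi
    · rfl
    · apply hvv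
      push_cast
      rwa [add_comm, neg_add_cancel_right]
  · intro σ hσ v v' hv hv'
    rw [hlab σ v hv, hlab σ v' hv', hAB σ hσ, hg, hg, sub_left_inj, hlab0]
    constructor
    · intro h1
      have := h.C_sh σ _ _ (h.C_trans _ _ _ (h.C_trans _ _ _ (hnz _ (hz σ v hv)) h1)
        (h.C_symm _ _ (hnz _ (hz σ v' hv'))))
      simpa [sh_sh] using this
    · intro h1
      exact h.C_trans _ _ _ (h.C_trans _ _ _ (h.C_symm _ _ (hnz _ (hz σ v hv))) (h.C_sh _ _ _ h1))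
        (hnz _ (hz σ v' hv'))
  · intro σ hσ v hv
    rw [hlab1 σ v hv, hlab σ v hv, hAB σ hσ, hAB (σ + 1) (by omega)]
  · rintro σ hσ ⟨m, rfl⟩ hqσ v hv
    have hv' : Φ v = ((P * m : ℕ) : ZMod q) := by
      rw [hv, (ZMod.natCast_eq_zero_iff _ _).2 hqσ]
    rw [hlab 0 v (by simpa using hv), hlab _ v hv', hAB _ hσ, hg, hA0, sub_add_cancel,
      Equiv.Perm.one_apply, hlab0]
    refine h.C_trans _ _ _ (h.C_symm _ _ (hnz _ (hz 0 v (by simpa using hv))))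
      (h.C_trans _ _ _ ?_ (hnz _ (hz _ v hv')))
    have := h.C_mul m (sh (-((P * m : ℕ) : ℤ)) v)
    rw [sh_sh, add_neg_cancel] at this
    exact h.C_symm _ _ (by simpa using this)
  · intro σ hσ v hv
    have : lab0 (r0 (lab σ v + 1)) = lab0 (nz _ (hz σ v hv)) := by
      rw [hr0, hlab σ v hv, hAB σ hσ, hg, sub_add_cancel]
    rw [hlab0] at this
    have := h.C_sh σ _ _ (h.C_trans _ _ _ this (h.C_symm _ _ (hnz _ (hz σ v hv))))
    simpa [sh_sh] using this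

end

end Pool.Agent.P.MP_1a637f_co.G
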