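import Pool.Agent.P.MP_1a637f_co.G.Trans

/-! Virtual systems over `ZMod a` and the recursive step. -/

set_option linter.unusedSectionVars false

namespace Pool.Agent.P.MP_1a637f_co.G

open Classical W

/-- A virtual system: clock `Φ`, cells `C` and read positions `rd`. -/
structure GS (a L q P ρ : ℕ) (Φ : W a L → ZMod q) (C : W a L → W a L → Prop)
    (rd : W a L → Prop) : Prop where
  Lpos : 0 < L
  qpos : 0 < q
  Φ_sh : ∀ x, Φ (sh 1 x) = Φ x + 1
  C_refl : ∀ x, C x x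
  C_symm : ∀ x y, C x y → C y x
  C_trans : ∀ x y z, C x y → C y z → C x z
  C_sh : ∀ k x y, C x y → C (sh k x) (sh k y)
  C_Φ : ∀ x y, C x y → Φ x = Φ y
  C_rd : ∀ x y, C x y → rd x → rd y
  C_P : ∀ x, C x (sh P x)
  rd_L : ∀ x, rd (sh L x) ↔ rd x
  junta : ∀ x y, (∀ i, rd (sh i x) → y.1 i = x.1 i) → C x y
  conn_Φ : ∀ r, Conn (fun x => Φ x = r)
  conn_C : ∀ x, Conn (C x)
  line : ∀ x j, ∃ y, ∀ t, C x (bump j t y)
  card_C : ∃ s, ∀ x, Nat.card {y // C x y} = s
  count : ∀ x, Nat.count (fun i : ℕ => rd (sh i x)) L ≤ ρ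

/-- Every change of the digit is made by some single-letter change. -/
def Edge {a L : ℕ} (b : W a L → ZMod a) : Prop :=
  ∀ β δ, ∃ z j t, b z = β ∧ b (bump j t z) = β + δ

theorem count_mul (p : ℕ → Prop) (N L : ℕ) : Nat.count p (N * L) =
    ∑ t ∈ Finset.range N, Nat.count (fun m => p (N * m + t)) L := by
  induction L with
  | zero => simp
  | succ L ih =>
    rw [mul_add, mul_one, Nat.count_add, ih]
    simp only [Nat.count_succ, Finset.sum_add_distrib]
    congr 1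
    rw [Nat.count_eq_card_filter_range, Finset.card_filter]

section
variable {a L N P ρ : ℕ} {b : W a L → ZMod a} {C : W a L → W a L → Prop} {rd : W a L → Prop}
  {g : W a N → ZMod N}

/-- New cells. -/
def C1 (hb : ∀ x, b (sh 1 x) = b x + 1) (g : W a N → ZMod N) (C : W a L → W a L → Prop)
    (x y : W a (N * L)) : Prop :=
  ∀ c : ℤ, g (dig hb x) + c ≠ 0 → C (blk c x) (blk c y)

/-- New read positions. -/
def rd1 (hb : ∀ x, b (sh 1 x) = b x + 1) (g : W a N → ZMod N) (rd : W a L → Prop)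
    (x : W a (N * L)) : Prop := g (dig hb x) ≠ 0 ∧ rd (blk 0 x)

theorem dig_surj (hb : ∀ x, b (sh 1 x) = b x + 1) (hN : 0 < N) (he : Edge b) (u : W a N) :
    ∃ x : W a (N * L), dig hb x = u := by
  choose z _ _ hz _ using fun c : ℕ => he (u.1 c) 0
  exact ⟨glue hN z, ext_window hN (fun c hc => by rw [dig_apply, blk_glue hN _ hc, hz])⟩

theorem edge_dig (hb : ∀ x, b (sh 1 x) = b x + 1) (hN : 0 < N) (he : Edge b)
    {Ψ : W a N → ZMod a} (hΨ : Edge Ψ) : Edge (fun x : W a (N * L) => Ψ (dig hb x)) := by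
  intro β δ
  obtain ⟨u, j, t, e1, e2⟩ := hΨ β δ
  obtain ⟨x, rfl⟩ := dig_surj hb hN he u
  obtain ⟨z, i, s, f1, f2⟩ := he (b (blk j x)) t
  refine ⟨setBlk hN j x z, N * i + j, s, ?_, ?_⟩
  · beta_reduce
    rw [dig_setBlk, f1]; simpa using e1
  · beta_reduce
    rw [← setBlk_bump, dig_setBlk, f2]; simpa using e2

variable [NeZero N]

theorem C1_g (h : GS a L a P ρ b C rd) (hg : Gad g) {x y : W a (N * L)}
    (hxy : C1 h.Φ_sh g C x y) : g (dig h.Φ_sh y) = g (dig h.Φ_sh x) :=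
  hg.junta (fun c hc => (h.C_Φ _ _ (hxy c hc)).symm)

theorem C1_iff (h : GS a L a P ρ b C rd) (x y : W a (N * L)) : C1 h.Φ_sh g C x y ↔
    ∀ i : ℕ, i < N → (g (dig h.Φ_sh x) + i ≠ 0 → C (blk i x) (blk i y)) := by
  refine ⟨fun H i _ hi => H i (by simpa using hi), fun H c hc => ?_⟩
  obtain ⟨i, hi, e⟩ := exists_nat (NeZero.pos N) c
  rw [blk_mod c x, blk_mod c y, ← e]
  refine h.C_sh _ _ _ (H i hi ?_)
  rwa [← Int.cast_natCast, e, ZMod.intCast_mod]

theorem C1_setBlk (h : GS a L a P ρ b C rd) (d : ℤ) (x : W a (N * L)) (z : W a L)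
    (hz : C (blk d x) z) : C1 h.Φ_sh g C x (setBlk (NeZero.pos N) d x z) := by
  intro c _
  by_cases hc : (N : ℤ) ∣ c - d
  · obtain ⟨m, hm⟩ := hc
    rw [show c = d + N * m by linarith, blk_add, blk_add, blk_setBlk]
    exact h.C_sh _ _ _ hz
  · rw [blk_setBlk_ne _ hc]; exact h.C_refl _

theorem GS.step [NeZero a] (h : GS a L a P ρ b C rd) (he : Edge b) (hg : Gad g) {q : ℕ}
    (hq : 0 < q) {Ψ : W a N → ZMod q} (h1 : ∀ u, Ψ (sh 1 u) = Ψ u + 1)
    (h2 : ∀ u v, g u = g v → Ψ u = Ψ v) (h3 : ∀ r, Conn (fun u => Ψ u = r)) :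
    GS a (N * L) q (N * P) ((N - 1) * ρ) (fun x => Ψ (dig h.Φ_sh x)) (C1 h.Φ_sh g C)
      (rd1 h.Φ_sh g rd) := by
  have hN := NeZero.pos N
  have gsh : ∀ (k : ℤ) (x : W a (N * L)), g (dig h.Φ_sh (sh k x)) = g (dig h.Φ_sh x) + k :=
    fun k x => by rw [dig_sh, clk_sh hg.sh1]
  have uniq : ∀ r : ZMod N, ∃ i0, i0 < N ∧ ∀ i : ℕ, i < N → (r + i = 0 ↔ i = i0) := by
    intro r
    refine ⟨(-r).val, ZMod.val_lt _, fun i hi => ⟨fun e => ?_, fun e => by simp [e]⟩⟩
    rw [← eq_neg_of_add_eq_zero_right e, ZMod.val_natCast_of_lt hi]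
  refine
    { Lpos := Nat.mul_pos hN h.Lpos
      qpos := hq
      Φ_sh := fun x => by rw [dig_sh, h1]
      C_refl := fun x c _ => h.C_refl _
      C_symm := fun x y H c hc => h.C_symm _ _ (H c (by rwa [← C1_g h hg H]))
      C_trans := fun x y z H H' c hc =>
        h.C_trans _ _ _ (H c hc) (H' c (by rwa [C1_g h hg H]))
      C_sh := ?_
      C_Φ := fun x y H => h2 _ _ (C1_g h hg H).symm
      C_rd := fun x y H ⟨h3, h4⟩ =>
        ⟨by rwa [C1_g h hg H], h.C_rd _ _ (H 0 (by simpa using h3)) h4⟩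
      C_P := ?_
      rd_L := ?_
      junta := ?_
      conn_Φ := fun r => conn_dig h.Φ_sh hN h.conn_Φ he (h3 r)
      conn_C := ?_
      line := ?_
      card_C := ?_
      count := ?_ }
  · intro k x y H c hc
    rw [blk_sh, blk_sh]
    apply H
    rw [gsh] at hc
    push_cast
    rwa [add_comm (c : ZMod N), ← add_assoc]
  · intro x c _
    rw [blk_sh]; push_cast; rw [blk_add]; exact h.C_P _
  · intro x
    unfold rd1
    rw [gsh, blk_sh]; push_cast
    rw [blk_add, h.rd_L]; simp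
  · intro x y hxy d hd
    apply h.junta
    intro i hi
    apply hxy
    refine ⟨?_, ?_⟩
    · rw [gsh]; push_cast; simpa using hd
    · rw [blk_sh, show 0 + (N * i + d) = d + N * i by ring, blk_add]; exact hi
  · intro x
    have := conn_prod hN (P := fun i z => g (dig h.Φ_sh x) + i ≠ 0 → C (blk i x) z) (fun i _ => by
      by_cases hi : g (dig h.Φ_sh x) + i = 0
      · simpa [hi] using conn_univ h.Lpos
      · simpa [hi] using h.conn_C _)
    have e : C1 h.Φ_sh g C x = _ := funext (fun y => propext (C1_iff h x y))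
    rw [e]; exact this
  · intro x j
    obtain ⟨y, hy⟩ := h.line (blk j x) 0
    refine ⟨setBlk hN j x y, fun t => ?_⟩
    have := setBlk_bump hN j 0 t x y
    rw [mul_zero, zero_add] at this
    rw [← this]
    exact C1_setBlk h _ _ _ (hy t)
  · obtain ⟨s, hs⟩ := h.card_C
    refine ⟨Nat.card (W a L) * s ^ (N - 1), fun x => ?_⟩
    obtain ⟨i0, hi0, e0⟩ := uniq (g (dig h.Φ_sh x))
    have e1 : Nat.card {y // C1 h.Φ_sh g C x y} = Nat.card (∀ i : Fin N,
        {z : W a L // g (dig h.Φ_sh x) + (i : ℕ) ≠ 0 → C (blk (i : ℕ) x) z}) := by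
      refine Nat.card_eq_of_bijective (fun y i => ⟨blk (i : ℕ) y.1,
        (C1_iff h x y.1).1 y.2 i i.2⟩) ⟨fun y z hyz => ?_, fun f => ?_⟩
      · exact Subtype.ext (blk_ext hN (fun i hi => congrArg Subtype.val (congrFun hyz ⟨i, hi⟩)))
      · refine ⟨⟨glue hN (fun i => if hi : i < N then (f ⟨i, hi⟩).1 else blk 0 x), ?_⟩, ?_⟩
        · rw [C1_iff h]
          intro i hi
          rw [blk_glue hN _ hi, dif_pos hi]
          exact (f ⟨i, hi⟩).2
        · funext i
          apply Subtype.ext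
          simp only
          rw [blk_glue hN _ i.2, dif_pos i.2]
    rw [e1, Nat.card_pi, ← Finset.mul_prod_erase _ _ (Finset.mem_univ (⟨i0, hi0⟩ : Fin N))]
    congr 1
    · exact Nat.card_congr (Equiv.subtypeUnivEquiv (fun z hz => absurd ((e0 i0 hi0).2 rfl) hz))
    · rw [Finset.prod_congr rfl (g := fun _ => s)]
      · simp
      · intro i hi
        have : g (dig h.Φ_sh x) + (i : ℕ) ≠ 0 := fun e =>
          (Finset.mem_erase.1 hi).1 (Fin.ext ((e0 i i.2).1 e))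
        rw [← hs (blk (i : ℕ) x)]
        simp only [this, ne_eq, not_false_eq_true, forall_const]
  · intro x
    obtain ⟨i0, hi0, e0⟩ := uniq (g (dig h.Φ_sh x))
    have e : ∀ m t : ℕ, rd1 h.Φ_sh g rd (sh ((N * m + t : ℕ) : ℤ) x) ↔
        (g (dig h.Φ_sh x) + t ≠ 0 ∧ rd (sh m (blk t x))) := by
      intro m t
      unfold rd1
      rw [gsh, blk_sh, ← blk_add]
      push_cast
      rw [show 0 + (N * (m : ℤ) + t) = t + N * m by ring]
      simp
    rw [count_mul, ← Finset.add_sum_erase _ _ (Finset.mem_range.2 hi0),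
      Nat.count_iff_forall_not.2 (fun m _ hm => ((e m i0).1 hm).1 ((e0 i0 hi0).2 rfl)), zero_add]
    refine le_trans (Finset.sum_le_card_nsmul _ _ ρ (fun t _ => ?_)) (by simp [hi0])
    exact le_trans (Nat.count_mono_left (fun m _ hm => ((e m t).1 hm).2)) (h.count _)

end

variable {a : ℕ} [NeZero a]

theorem GS.base (h1 : (1 : ZMod a) ≠ 0) :
    GS a (a * a) a a (a * a) bq (fun x y => bq x = bq y) (fun _ => True) where
  Lpos := aa_pos
  qpos := NeZero.pos a
  Φ_sh := bq_sh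
  C_refl := fun _ => rfl
  C_symm := fun _ _ h => h.symm
  C_trans := fun _ _ _ h h' => h.trans h'
  C_sh := fun k x y h => by rw [clk_sh bq_sh, clk_sh bq_sh, h]
  C_Φ := fun _ _ h => h
  C_rd := fun _ _ _ _ => trivial
  C_P := fun x => by rw [clk_sh bq_sh]; simp
  rd_L := fun _ => Iff.rfl
  junta := fun x y h => by rw [ext' (fun i => h i trivial)]
  conn_Φ := bq_conn h1
  conn_C := fun x y z hy hz =>
    Path.mono (fun _ h => h.symm) (bq_conn h1 (bq x) y z hy.symm hz.symm)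
  line := fun x j => by
    obtain ⟨y, e1, e2⟩ := exists_bq h1 (bq x) j
    exact ⟨y, fun t => by rw [bq_bump, e1, e2]; simp⟩
  card_C := by
    refine ⟨Nat.card {y : W a (a * a) // 0 = bq y}, fun x => ?_⟩
    refine Nat.card_congr (Equiv.subtypeEquiv ⟨sh (-((bq x).val : ℤ)), sh (bq x).val,
      fun y => by simp [sh_sh], fun y => by simp [sh_sh]⟩ (fun y => ?_))
    show bq x = bq y ↔ 0 = bq (sh (-((bq x).val : ℤ)) y)
    rw [clk_sh bq_sh, Int.cast_neg, Int.cast_natCast, ZMod.natCast_zmod_val, ← sub_eq_add_neg,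
      eq_sub_iff_add_eq, zero_add]
  count := fun _ => @Nat.count_le _ (_) _

theorem edge_bq (h1 : (1 : ZMod a) ≠ 0) : Edge (bq (a := a)) := by
  intro β δ
  obtain ⟨z, e, -⟩ := exists_bq h1 β 0
  obtain ⟨j, e1, -⟩ := bq_edge z δ
  exact ⟨z, j, δ, e, by rw [e1, e]⟩

/-- Existence of a lower-level virtual system. -/
def HasLow (a L P ρ : ℕ) : Prop := ∃ b C rd, GS a L a P ρ b C rd ∧ Edge b

theorem hasLow (h1 : (1 : ZMod a) ≠ 0) (k : ℕ) :
    HasLow a ((a * a) ^ (k + 1)) ((a * a) ^ k * a) ((a * a - 1) ^ k * (a * a)) := by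
  induction k with
  | zero =>
    have : HasLow a (a * a) a (a * a) := ⟨_, _, _, GS.base h1, edge_bq h1⟩
    convert this using 1 <;> ring
  | succ k ih =>
    obtain ⟨b, C, rd, h, he⟩ := ih
    have : NeZero (a * a) := ⟨aa_pos.ne'⟩
    have : HasLow a _ _ _ := ⟨_, _, _, h.step he gad_quad (NeZero.pos a) bq_sh
      (fun u v e => (comb_inj e).1) (bq_conn h1), edge_dig h.Φ_sh aa_pos he (edge_bq h1)⟩
    convert this using 1 <;> ring

/-- The sum of the letters. -/
def tot {L : ℕ} (x : W a L) : ZMod a := ∑ i ∈ Finset.range L, x.1 i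

theorem tot_sh {L : ℕ} (x : W a L) : tot (sh 1 x) = tot x + 1 := by
  have h1 := Finset.sum_range_succ (fun i : ℕ => x.1 i) L
  have h2 := Finset.sum_range_succ' (fun i : ℕ => x.1 i) L
  have h3 := x.2 0
  rw [h2] at h1
  simp only [zero_add, Nat.cast_zero, Nat.cast_add, Nat.cast_one] at h1 h3
  unfold tot
  simp only [sh_apply]
  linear_combination h1 + h3

theorem tot_bump {L : ℕ} (hL : 0 < L) (t : ZMod a) (x : W a L) : tot (bump 0 t x) = tot x + t := by
  unfold tot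
  simp only [bump_apply, Finset.sum_add_distrib]
  rw [Finset.sum_eq_single 0 (f := fun m : ℕ => if (L : ℤ) ∣ (m : ℤ) - 0 then t else 0)]
  · simp
  · intro m hm hne
    exact if_neg (not_dvd_of_lt (j := 0) (by simpa using hm) hL hne)
  · intro h; exact absurd (by simpa using hL) h

omit [NeZero a] in
theorem exists_gadget {p : ℕ} (hp : p.Prime) (k : ℕ) {q : ℕ} (hq : q = (p * p) ^ (k + 2)) :
    ∃ g : W p (q * (p * p)) → ZMod (q * (p * p)), Gad g ∧ Conn (fun x => g x = 0) := by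
  have : Fact p.Prime := ⟨hp⟩
  have h2 := hp.two_le
  have h16 : 16 ≤ q := by
    rw [hq]
    calc 16 = (2 * 2) ^ 2 := by norm_num
      _ ≤ (p * p) ^ 2 := by gcongr
      _ ≤ (p * p) ^ (k + 2) := Nat.pow_le_pow_right (by positivity) (by omega)
  have hq0 : 0 < q := by omega
  have hl := hasLow (a := p) one_ne_zero (k + 1)
  rw [← hq] at hl
  obtain ⟨b, C, rd, h, -⟩ := hl
  obtain ⟨y, hy⟩ := h.line (win q hq0 (fun _ => 0)) 0
  obtain ⟨F, f1, f2, f3⟩ := exists_clock hq0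
    (free_pow hp (e := 2 * (k + 2)) (by rw [hq]; ring)) (fun u => ∃ t, u = bump 0 t y) y
    ⟨0, by simp⟩ (by
      rintro _ _ ⟨s, rfl⟩ ⟨t, rfl⟩
      have := Path.one (P := fun u => ∃ t, u = bump 0 t y) (x := bump 0 s y) (j := 0)
        (t := t - s) ⟨s, rfl⟩ ⟨_, bump_bump _ _ _ _⟩
      simpa [bump_bump] using this) (by
      rintro _ _ l ⟨s, rfl⟩ ⟨t, rfl⟩ e
      have e1 := congrArg b e
      have e2 := congrArg tot e
      rw [clk_sh h.Φ_sh, ← h.C_Φ _ _ (hy s), ← h.C_Φ _ _ (hy t)] at e1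
      rw [clk_sh tot_sh, tot_bump hq0, tot_bump hq0] at e2
      rw [show s = t by linear_combination e2 - e1])
  have hex : ∃ u, F u = 0 ∧ ∀ t, u ≠ bump 0 t y := by
    by_contra hno
    push Not at hno
    have : NeZero (q * p) := ⟨by positivity⟩
    have hs : Function.Surjective (fun r : ZMod (q * p) × ZMod p => sh r.1.val (bump 0 r.2 y)) := by
      intro x
      obtain ⟨t, ht⟩ := hno (sh (-((F x).val : ℤ)) x) (by rw [clk_sh f1]; simp)
      exact ⟨(F x, t), by simp only; rw [← ht, sh_sh]; simp⟩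
    have hc := Nat.card_le_card_of_surjective _ hs
    rw [W.card hq0, Nat.card_prod, Nat.card_zmod, Nat.card_zmod] at hc
    obtain ⟨m, rfl⟩ : ∃ m, q = m + 1 + 2 := ⟨q - 3, by omega⟩
    have a1 : m < 2 ^ m := Nat.lt_two_pow_self
    have a2 : 2 ^ (m + 1) ≤ p ^ (m + 1) := by gcongr
    have a3 : m + 1 + 2 < p ^ (m + 1) := by rw [pow_succ] at a2; omega
    have a4 : (m + 1 + 2) * (p * p) < p ^ (m + 1) * (p * p) :=
      Nat.mul_lt_mul_of_pos_right a3 (by positivity)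
    rw [pow_add p (m + 1) 2, pow_two, mul_assoc] at hc
    omega
  obtain ⟨u, e1, e2⟩ := hex
  exact exists_top one_ne_zero (by omega) F f1 f3 y (fun t => f2 _ ⟨t, rfl⟩) u e1 e2

/-- Virtual system with an unread residue class. -/
def HasTop (a L q P ρ : ℕ) : Prop :=
  ∃ Φ C rd, GS a L q P ρ Φ C rd ∧ ∀ x, Φ x = -1 → ¬ rd x

omit [NeZero a] in
theorem hasTop {p : ℕ} (hp : p.Prime) (j k : ℕ) : HasTop p ((p * p) ^ (j + 3) * (p * p) ^ (k + 1))
    ((p * p) ^ (j + 3)) ((p * p) ^ (j + 3) * ((p * p) ^ k * p))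
    (((p * p) ^ (j + 3) - 1) * ((p * p - 1) ^ k * (p * p))) := by
  have : Fact p.Prime := ⟨hp⟩
  obtain ⟨b, C, rd, h, he⟩ := hasLow (a := p) one_ne_zero k
  obtain ⟨g, hg, hc⟩ := exists_gadget hp j rfl
  have h0 : 0 < (p * p) ^ (j + 2) * (p * p) := by have := hp.pos; positivity
  have : NeZero ((p * p) ^ (j + 2) * (p * p)) := ⟨h0.ne'⟩
  have : HasTop p _ _ _ _ := ⟨_, _, _, h.step he hg h0 (Ψ := fun u => g u - 1)
    (fun u => by rw [hg.sh1]; ring) (fun u v e => by rw [e]) (fun r => by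
      simpa only [sub_eq_iff_eq_add] using conn_clock hg.sh1 hc (r + 1)),
    fun x hx hr => hr.1 (by simpa using hx)⟩
  exact this

omit [NeZero a] in
theorem exists_counter {p : ℕ} (hp : p.Prime) (e k : ℕ) :
    ∃ χ : W p (p ^ e * (p * p) ^ (k + 1)) → ZMod (p ^ e * p),
      (∀ y, χ (sh 1 y) = χ y + 1) ∧ ∀ r, Conn (fun y => χ y = r) := by
  have : Fact p.Prime := ⟨hp⟩
  obtain ⟨b, C, rd, h, he⟩ := hasLow (a := p) one_ne_zero k
  have h0 : 0 < p ^ e := by have := hp.pos; positivity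
  have : NeZero (p ^ e * p) := ⟨(Nat.mul_pos h0 hp.pos).ne'⟩
  obtain ⟨F, f1, -, f3⟩ := exists_clock h0 (free_pow hp rfl) (fun u => u = win _ h0 (fun _ => 0)) _
    rfl (conn_eq _) (by rintro _ _ _ rfl rfl _; rfl)
  exact ⟨fun y => F (dig h.Φ_sh y), fun y => by beta_reduce; rw [dig_sh, f1],
    fun r => conn_dig h.Φ_sh h0 h.conn_Φ he (conn_clock f1 f3 r)⟩

end Pool.Agent.P.MP_1a637f_co.G
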