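import Pool.Agent.P.MP_1a637f_co.G.Quad

/-! Clocks with connected fibres and gadgets with one unread letter. -/

set_option linter.unusedSectionVars false

namespace Pool.Agent.P.MP_1a637f_co.G

open Classical W

variable {a L M : ℕ}

theorem sh_mul_fix {x : W a L} {k : ℤ} (h : sh k x = x) (m : ℤ) : sh (m * k) x = x := by
  induction m using Int.induction_on with
  | zero => simp
  | succ m ih => rw [add_mul, one_mul, ← sh_sh, h, ih]
  | pred m ih =>
    apply sh_inj k
    rw [sh_sh, h, show k + (-(m : ℤ) - 1) * k = -(m : ℤ) * k by ring, ih]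

theorem free_pow {p : ℕ} (hp : p.Prime) {e : ℕ} (hM : M = p ^ e) (x : W p M) (k : ℤ)
    (h : sh k x = x) : ((M * p : ℕ) : ℤ) ∣ k := by
  have : Fact p.Prime := ⟨hp⟩
  have hg : sh (Int.gcd k (M * p : ℕ) : ℤ) x = x := by
    rw [Int.gcd_eq_gcd_ab, ← sh_sh, mul_comm ((M * p : ℕ) : ℤ), sh_full, mul_comm,
      sh_mul_fix h]
  have hd : Int.gcd k (M * p : ℕ) ∣ p ^ (e + 1) := by
    rw [pow_succ, ← hM]
    exact_mod_cast Int.gcd_dvd_right k (M * p : ℕ)
  obtain ⟨i, hi, e1⟩ := (Nat.dvd_prime_pow hp).1 hd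
  rcases Nat.eq_or_lt_of_le hi with rfl | hi
  · rw [hM, ← pow_succ, ← e1]
    exact Int.gcd_dvd_left _ _
  · exfalso
    have h2 := sh_mul_fix hg (p ^ (e - i) : ℕ)
    rw [e1, ← Nat.cast_mul, ← pow_add, show e - i + i = e by omega, ← hM] at h2
    have h3 := congrFun (congrArg W.val h2) 0
    rw [sh_apply, x.2] at h3
    simp at h3

theorem exists_clock [NeZero a] (hM : 0 < M)
    (hfree : ∀ (x : W a M) (k : ℤ), sh k x = x → ((M * a : ℕ) : ℤ) ∣ k)
    (D0 : W a M → Prop) (x0 : W a M) (h0 : D0 x0) (hc : Conn D0)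
    (ht : ∀ x y k, D0 x → D0 y → sh k x = y → x = y) :
    ∃ F : W a M → ZMod (M * a), (∀ x, F (sh 1 x) = F x + 1) ∧ (∀ x, D0 x → F x = 0) ∧
      Conn (fun x => F x = 0) := by
  have := W.finite (a := a) hM
  obtain ⟨D, ⟨h1, h2, h3⟩, hmax⟩ := Set.exists_max_image
    {D : Set (W a M) | (∀ x, D0 x → x ∈ D) ∧ Conn (· ∈ D) ∧
      ∀ x y k, x ∈ D → y ∈ D → sh k x = y → x = y} Set.ncard (Set.toFinite _)
    ⟨{x | D0 x}, fun _ h => h, hc, ht⟩
  have cover : ∀ x, ∃ k, sh k x ∈ D := by
    intro x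
    have hp := conn_univ hM x0 x trivial trivial
    induction hp with
    | refl => exact ⟨0, by simpa using h1 _ h0⟩
    | @tail w w' _ h' ih =>
      obtain ⟨-, -, j, t, rfl⟩ := h'
      obtain ⟨k, hk⟩ := ih
      by_contra hno
      push Not at hno
      have hm := hmax (insert (sh k (bump j t w)) D) ⟨fun x hx => Or.inr (h1 x hx), ?_, ?_⟩
      · rw [Set.ncard_insert_of_notMem (hno k)] at hm
        omega
      · have key : ∀ y, y ∈ insert (sh k (bump j t w)) D →
            Path (· ∈ insert (sh k (bump j t w)) D) (sh k w) y := by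
          rintro y (rfl | hy)
          · rw [sh_bump]
            exact Path.one (Or.inr hk) (Or.inl rfl)
          · exact Path.mono (fun z hz => Or.inr hz) (h2 _ _ hk hy)
        exact fun x y hx hy => (key x hx).symm.trans (key y hy)
      · rintro x y l (rfl | hx) (rfl | hy) e
        · rfl
        · rw [sh_sh] at e
          exact absurd (e ▸ hy) (hno _)
        · have : x = sh (-l + k) (bump j t w) := by rw [← sh_sh, ← e, sh_sh]; simp
          exact absurd (this ▸ hx) (hno _)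
        · exact h3 _ _ _ hx hy e
  choose k hk using cover
  have uniq : ∀ x (l : ℤ), sh l x ∈ D → ((k x : ℤ) : ZMod (M * a)) = l := by
    intro x l hl
    have e : sh (l - k x) (sh (k x) x) = sh l x := by rw [sh_sh]; simp
    have e2 := h3 _ _ _ (hk x) hl e
    rw [← e2] at e
    rw [eq_comm, ← sub_eq_zero, ← Int.cast_sub, ZMod.intCast_zmod_eq_zero_iff_dvd]
    exact hfree _ _ e
  have zero : ∀ x, -((k x : ℤ) : ZMod (M * a)) = 0 ↔ x ∈ D := by
    intro x
    constructor
    · intro h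
      rw [neg_eq_zero, ZMod.intCast_zmod_eq_zero_iff_dvd] at h
      obtain ⟨m, hm⟩ := h
      have := hk x
      rwa [hm, mul_comm, sh_full] at this
    · intro h
      rw [uniq x 0 (by simpa using h)]; simp
  refine ⟨fun x => -((k x : ℤ) : ZMod (M * a)), fun x => ?_, fun x hx => (zero x).2 (h1 x hx), ?_⟩
  · have := uniq x (k (sh 1 x) + 1) (by rw [← sh_sh]; exact hk _)
    beta_reduce
    rw [this]; push_cast; ring
  · simpa only [zero] using h2

/-- Refine a clock by one more digit. -/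
def extc {m : ℕ} (F : W a L → ZMod m) (κ : W a L → ZMod a) (x : W a L) : ZMod (m * a) :=
  comb (F x) (-κ (sh (-((F x).val : ℤ)) x))

theorem extc_sh {m : ℕ} [NeZero m] [NeZero a] {F : W a L → ZMod m} {κ : W a L → ZMod a}
    (hF : ∀ x, F (sh 1 x) = F x + 1) (hκ : ∀ x, κ (sh m x) = κ x - 1) (x : W a L) :
    extc F κ (sh 1 x) = extc F κ x + 1 := by
  unfold extc
  rw [← comb_succ, hF, sh_sh]
  congr 1
  split_ifs with h
  · have h' := (eq_neg_one_iff _).1 h
    have h2 := hκ (sh (-((F x).val : ℤ)) x)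
    rw [sh_sh, show (m : ℤ) + -((F x).val : ℤ) = 1 by omega] at h2
    rw [h, neg_add_cancel, ZMod.val_zero, ← h]
    simp only [Nat.cast_zero, neg_zero, zero_add, h2]
    ring
  · rw [val_succ_of_ne h]
    congr 3
    push_cast; ring

theorem extc_zero {m : ℕ} [NeZero m] [NeZero a] (F : W a L → ZMod m) (κ : W a L → ZMod a)
    (x : W a L) : extc F κ x = 0 ↔ F x = 0 ∧ κ x = 0 := by
  have e : comb (0 : ZMod m) (0 : ZMod a) = 0 := by simp [comb]
  unfold extc
  constructor
  · intro h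
    obtain ⟨h1, h2⟩ := comb_inj (h.trans e.symm)
    rw [h1] at h2
    exact ⟨h1, by simpa using h2⟩
  · rintro ⟨h1, h2⟩
    rw [h1]; simpa [h2] using e

/-- A clock on words of length `N` which does not read the letter it points to. -/
structure Gad {N : ℕ} (g : W a N → ZMod N) : Prop where
  sh1 : ∀ u, g (sh 1 u) = g u + 1
  free : ∀ u t, g u = 0 → g (bump 0 t u) = 0

theorem Gad.junta {N : ℕ} [NeZero N] {g : W a N → ZMod N} (h : Gad g) {u v : W a N}
    (hv : ∀ c : ℤ, g u + c ≠ 0 → v.1 c = u.1 c) : g v = g u := by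
  have e := eq_bump (x := u) (y := v) (-((g u).val : ℤ)) (fun i hi => hv i (fun h0 => hi (by
    rw [← ZMod.intCast_zmod_eq_zero_iff_dvd, ← h0]; simp [add_comm])))
  have e2 := clk_sh h.sh1 (-((g u).val : ℤ)) v
  rw [e, sh_bump, sub_self, h.free _ _ (by rw [clk_sh h.sh1]; simp), ← e] at e2
  rw [Int.cast_neg, Int.cast_natCast, ZMod.natCast_zmod_val] at e2
  linear_combination -e2

theorem exists_gad {N q : ℕ} (e : q = N) (g : W a N → ZMod q) (h1 : ∀ u, g (sh 1 u) = g u + 1)
    (h2 : ∀ u t, g u = 0 → g (bump 0 t u) = 0) :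
    ∃ g' : W a N → ZMod N, Gad g' ∧ ∀ u, g' u = 0 ↔ g u = 0 := by
  subst e
  exact ⟨g, ⟨h1, h2⟩, fun _ => Iff.rfl⟩

variable [NeZero a]

theorem gad_quad : Gad (extc (bq (a := a)) lam) where
  sh1 := extc_sh bq_sh lam_sh
  free := fun u t h => by
    rw [extc_zero] at h ⊢
    exact ⟨by rw [bq_bump0, h.1, h.2]; simp, by rw [lam_bump, h.2]; simp [chi]⟩

theorem exists_top (h1 : (1 : ZMod a) ≠ 0) {q : ℕ} (hq : 2 ≤ q) (F : W a q → ZMod (q * a))
    (hF : ∀ x, F (sh 1 x) = F x + 1) (hc : Conn (fun x => F x = 0)) (u0 : W a q)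
    (hl : ∀ t, F (bump 0 t u0) = 0) (u1 : W a q) (hu1 : F u1 = 0) (hex : ∀ t, u1 ≠ bump 0 t u0) :
    ∃ g : W a (q * (a * a)) → ZMod (q * (a * a)), Gad g ∧ Conn (fun x => g x = 0) := by
  have hq0 : 0 < q := by omega
  have : NeZero (q * a) := ⟨(Nat.mul_pos hq0 (NeZero.pos a)).ne'⟩
  have hN := aa_pos (a := a)
  let d : W a (q * (a * a)) → W a q := dig bq_sh
  let onl : W a q → Prop := fun u => ∃ t, u = bump 0 t u0
  let κ : W a (q * (a * a)) → ZMod a := fun x =>
    if onl (d x) then lam (blk 1 x) else lam (blk 0 x)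
  have n10 : ¬ (q : ℤ) ∣ 1 - 0 := not_dvd_of_lt (i := 1) (j := 0) hq hq0 (by omega)
  have onl_bump : ∀ u t, onl u → onl (bump 0 t u) := by
    rintro u t ⟨s, rfl⟩; exact ⟨_, bump_bump _ _ _ _⟩
  have onl_F : ∀ u, onl u → F u = 0 := by rintro u ⟨s, rfl⟩; exact hl s
  have onl_eq : ∀ u v, onl u → onl v → ∀ i : ℤ, ¬ (q : ℤ) ∣ i - 0 → u.1 i = v.1 i := by
    rintro u v ⟨s, rfl⟩ ⟨t, rfl⟩ i hi
    rw [bump_apply_of_not hi, bump_apply_of_not hi]
  have hsh : ∀ x, extc (fun x => F (d x)) κ (sh 1 x) = extc (fun x => F (d x)) κ x + 1 := by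
    apply extc_sh
    · intro x; simp only [d]; rw [dig_sh, hF]
    · intro x
      have e1 : d (sh (q * a : ℕ) x) = d x := by
        simp only [d]; rw [dig_sh]; simpa using sh_full (dig bq_sh x) 1
      simp only [κ, e1, blk_sh]
      push_cast
      rw [blk_add, blk_add, lam_sh, lam_sh]
      split_ifs <;> rfl
  let Z : W a (q * (a * a)) → Prop := fun x => F (d x) = 0 ∧ κ x = 0
  have Z1 : ∀ x, onl (d x) → (Z x ↔ lam (blk 1 x) = 0) := fun x h => by
    simp only [Z, κ, if_pos h, onl_F _ h, true_and]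
  have Z2 : ∀ x, ¬ onl (d x) → (Z x ↔ F (d x) = 0 ∧ lam (blk 0 x) = 0) := fun x h => by
    simp only [Z, κ, if_neg h]
  have hfree : ∀ x t, Z x → Z (bump 0 t x) := by
    intro x t hx
    have e := bump_eq_setBlk hq0 0 0 t x
    rw [mul_zero, add_zero] at e
    have e1 : d (bump 0 t x) = bump 0 (t * lam (blk 0 x)) (d x) := by
      simp only [d]; rw [e, dig_setBlk, bq_bump0]; simp
    by_cases h : onl (d x)
    · rw [Z1 _ (e1 ▸ onl_bump _ _ h), e, blk_setBlk_ne hq0 n10]
      exact (Z1 _ h).1 hx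
    · obtain ⟨h2, h3⟩ := (Z2 _ h).1 hx
      rw [h3, mul_zero, bump_zero] at e1
      rw [Z2 _ (e1 ▸ h), e1, e, blk_setBlk, lam_bump, h3]
      exact ⟨h2, by simp [chi]⟩
  obtain ⟨g, hg, hg0⟩ := exists_gad (mul_assoc q a a) _ hsh (fun x t h =>
    (extc_zero _ _ _).2 (hfree x t ((extc_zero _ _ _).1 h)))
  refine ⟨g, hg, ?_⟩
  simp only [hg0, extc_zero]
  show Conn Z
  have L1 : ∀ x x', Z x → ¬ onl (d x) → blk 0 x' = blk 0 x → d x' = d x → Path Z x x' := by
    intro x x' hx h e0 e1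
    have := conn_prod hq0 (P := fun i z => if i = 0 then z = blk 0 x else bq z = bq (blk i x))
      (fun i _ => by
        by_cases hi : i = 0
        · simpa only [if_pos hi] using conn_eq _
        · simpa only [if_neg hi] using bq_conn h1 _) x x'
      (fun i _ => by split_ifs with hi; · rw [hi]; rfl
                     · rfl)
      (fun i _ => by split_ifs with hi; · rw [hi]; exact e0
                     · exact congrFun (congrArg W.val e1) i)
    refine Path.mono (fun z hz => ?_) this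
    have z0 : blk 0 z = blk 0 x := by simpa using hz 0 hq0
    have z1 : d z = d x := ext_window hq0 (fun i hi => by
      have := hz i hi
      split_ifs at this with h0
      · subst h0; exact congrArg bq this
      · exact this)
    rw [Z2 _ (z1 ▸ h), z1, z0]
    exact (Z2 _ h).1 hx
  have L2 : ∀ x x', Z x → onl (d x) → blk 1 x' = blk 1 x → onl (d x') → Path Z x x' := by
    intro x x' hx h e0 e1
    have := conn_prod hq0 (P := fun i z => if i = 0 then True else
      if i = 1 then z = blk 1 x else bq z = bq (blk i x))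
      (fun i _ => by
        by_cases hi : i = 0
        · simpa only [if_pos hi] using conn_univ hN
        by_cases hi' : i = 1
        · simpa only [if_neg hi, if_pos hi'] using conn_eq _
        · simpa only [if_neg hi, if_neg hi'] using bq_conn h1 _) x x'
      (fun i _ => by
        split_ifs with hi hi'
        · rw [hi']; rfl
        · rfl)
      (fun i hi0 => by
        split_ifs with hi hi'
        · rw [hi']; exact e0
        · exact onl_eq _ _ e1 h i (not_dvd_of_lt (j := 0) hi0 hq0 hi))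
    refine Path.mono (fun z hz => ?_) this
    have z0 : blk 1 z = blk 1 x := by simpa using hz 1 hq
    have z1 : onl (d z) := by
      rw [eq_bump (x := d x) (y := d z) 0 (agree_int hq0 (fun i => ¬ (q : ℤ) ∣ i - 0)
        (fun i hi hd => hi (by
          rw [sub_zero] at hd ⊢
          rw [← Int.emod_add_mul_ediv i q]
          exact dvd_add hd (dvd_mul_right _ _))) (fun i hi hi' => by
        have := hz i hi
        split_ifs at this with h0 h0'
        · subst h0; simp at hi'
        · subst h0'; exact congrArg bq this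
        · exact this))]
      exact onl_bump _ _ h
    rw [Z1 _ z1, z0]
    exact (Z1 _ h).1 hx
  have L3 : ∀ x (i : ℤ) δ, ∃ j, d (bump j δ x) = bump i δ (d x) ∧
      lam (blk 0 (bump j δ x)) = lam (blk 0 x) ∧
      (¬ (q : ℤ) ∣ i - 0 → blk 0 (bump j δ x) = blk 0 x) := by
    intro x i δ
    by_cases hi : (q : ℤ) ∣ i - 0
    · obtain ⟨j, e1, e2⟩ := bq_edge (blk 0 x) δ
      refine ⟨q * j + 0, ?_, ?_, fun h => absurd hi h⟩
      · simp only [d]; rw [bump_eq_setBlk hq0, dig_setBlk, e1, bump_congr hi]; simp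
      · rw [bump_eq_setBlk hq0, blk_setBlk, e2]
    · obtain ⟨j, e1, -⟩ := bq_edge (blk i x) δ
      have : blk 0 (bump (q * j + i) δ x) = blk 0 x := by
        rw [bump_eq_setBlk hq0, blk_setBlk_ne hq0 (fun h => hi (dvd_sub_comm.1 h))]
      refine ⟨q * j + i, ?_, by rw [this], fun _ => this⟩
      simp only [d]; rw [bump_eq_setBlk hq0, dig_setBlk, e1]; simp
  have cross : ∃ u i δ, onl u ∧ ¬ onl (bump i δ u) ∧ F (bump i δ u) = 0 := by
    have hp := hc u0 u1 (by simpa using hl 0) hu1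
    by_contra hno
    have : onl u1 := by
      clear hex hu1
      induction hp with
      | refl => exact ⟨0, by simp⟩
      | tail _ h' ih =>
        obtain ⟨-, h2, j, t, rfl⟩ := h'
        by_contra h3
        exact hno ⟨_, j, t, ih, h3, h2⟩
    obtain ⟨t, ht⟩ := this
    exact hex t ht
  obtain ⟨u, i, δ, c1, c2, c3⟩ := cross
  have ci : ¬ (q : ℤ) ∣ i - 0 := fun h => c2 (bump_congr h δ u ▸ onl_bump _ _ c1)
  obtain ⟨z0, e1, e2⟩ := exists_bq h1 (u.1 0) 0
  rw [dq_zero] at e2
  have S1 : ∀ x, Z x → onl (d x) → ∃ x', Path Z x x' ∧ d x' = bump i δ u ∧ blk 0 x' = z0 := by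
    intro x hx h
    have a1 : onl (d (setBlk hq0 0 x z0)) := by
      simp only [d]; rw [dig_setBlk]; exact onl_bump _ _ h
    have a2 : d (setBlk hq0 0 x z0) = u := by
      have := eq_bump 0 (onl_eq _ _ a1 c1)
      rw [this]
      simp only [d]; rw [dig_apply, blk_setBlk, e1]; simp
    have p1 := L2 x _ hx h (blk_setBlk_ne hq0 n10 x z0) a1
    obtain ⟨j, b1, b2, b3⟩ := L3 (setBlk hq0 0 x z0) i δ
    rw [a2] at b1
    rw [blk_setBlk] at b2 b3
    exact ⟨_, p1.tail ⟨p1.last hx, (Z2 _ (b1 ▸ c2)).2 ⟨b1 ▸ c3, b2.trans e2⟩, j, δ, rfl⟩,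
      b1, b3 ci⟩
  have T1 : ∀ v, Path (fun x => F x = 0) v u0 → ∀ x, d x = v → Z x →
      ∃ x', Path Z x x' ∧ onl (d x') := by
    intro v hp
    induction hp using Relation.ReflTransGen.head_induction_on with
    | refl => exact fun x hx _ => ⟨x, .refl, 0, by simpa using hx⟩
    | @head v v' h' _ ih =>
      obtain ⟨-, h2, i, δ, rfl⟩ := h'
      rintro x rfl hx
      by_cases h : onl (d x)
      · exact ⟨x, .refl, h⟩
      by_cases h' : onl (bump i δ (d x))
      · have ci : ¬ (q : ℤ) ∣ i - 0 := fun hd => h (by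
          rw [← bump_neg i δ (d x), bump_congr hd]; exact onl_bump _ _ h')
        choose z hz hz' using fun c : ℕ => exists_bq h1 ((bump i δ (d x)).1 c) 0
        let y := glue hq0 (fun c => if c = 0 then blk 0 x else z c)
        have y0 : blk 0 y = blk 0 x := blk_glue hq0 _ hq0
        have y1 : blk 1 y = z 1 := blk_glue hq0 _ (i := 1) hq
        have y2 : d y = bump i δ (d x) := ext_window hq0 (fun c hc => by
          simp only [d, y]
          rw [dig_apply, blk_glue hq0 _ hc]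
          split_ifs with h0
          · subst h0
            rw [Nat.cast_zero, bump_apply_of_not (fun hd => ci (dvd_sub_comm.1 hd))]; rfl
          · exact hz c)
        have y3 : Z y := (Z1 _ (y2 ▸ h')).2 (by rw [y1, ← dq_zero, hz'])
        obtain ⟨j, b1, -, b3⟩ := L3 y i (-δ)
        rw [y2, bump_neg] at b1
        have p1 := L1 x _ hx h ((b3 ci).trans y0) b1
        exact ⟨y, p1.trans (Path.one y3 (p1.last hx)).symm, y2 ▸ h'⟩
      · obtain ⟨j, b1, b2, -⟩ := L3 x i δ
        have b3 : Z (bump j δ x) :=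
          (Z2 _ (b1 ▸ h')).2 ⟨b1 ▸ h2, b2.trans ((Z2 _ h).1 hx).2⟩
        obtain ⟨x', p1, p2⟩ := ih _ b1 b3
        exact ⟨x', (Path.one hx b3).trans p1, p2⟩
  have key : ∀ x, Z x → ∃ x', Path Z x x' ∧ d x' = bump i δ u ∧ blk 0 x' = z0 := by
    intro x hx
    obtain ⟨x1, p1, o1⟩ := T1 _ (hc _ u0 hx.1 (by simpa using hl 0)) x rfl hx
    obtain ⟨x2, p2, o2⟩ := S1 x1 (p1.last hx) o1
    exact ⟨x2, p1.trans p2, o2⟩
  intro x y hx hy
  obtain ⟨x1, p1, a1, a2⟩ := key x hx
  obtain ⟨y1, p2, b1, b2⟩ := key y hy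
  exact (p1.trans (L1 _ _ (p1.last hx) (a1 ▸ c2) (b2.trans a2.symm) (b1.trans a1.symm))).trans
    p2.symm

end Pool.Agent.P.MP_1a637f_co.G
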